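import Pool.Graph.R_pool_sql_team_seeded_3997aac3.Q54.KZ.Dif

/-!
# Regions of configurations of points in the plane given by the orientations of triples
-/

set_option autoImplicit false

namespace Pool.Agent.Helper8.OT

open MeasureTheory

/-- The elements of a configuration: the points and the four elements of the frame, that is the two directions
of the axes, the origin and the point `(1, 1)`. -/
abbrev E (κ : Type) : Type := κ ⊕ Fin 4

/-- triples of elements -/
abbrev Tri (κ : Type) : Type := E κ × E κ × E κ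

variable {ι ι' κ κ' : Type}

/-- the first homogeneous coordinate -/
def cx (p : κ → ℝ × ℝ) : E κ → ℝ
  | Sum.inl i => (p i).1
  | Sum.inr k => (![1, 0, 0, 1] : Fin 4 → ℝ) k

/-- the second homogeneous coordinate -/
def cy (p : κ → ℝ × ℝ) : E κ → ℝ
  | Sum.inl i => (p i).2
  | Sum.inr k => (![0, 1, 0, 1] : Fin 4 → ℝ) k

/-- the third homogeneous coordinate -/
def cz (_ : κ → ℝ × ℝ) : E κ → ℝ
  | Sum.inl _ => 1
  | Sum.inr k => (![0, 0, 1, 1] : Fin 4 → ℝ) k

/-- The determinant of three elements. -/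
def D (p : κ → ℝ × ℝ) (a b c : E κ) : ℝ :=
  cx p a * (cy p b * cz p c - cz p b * cy p c) - cy p a * (cx p b * cz p c - cz p b * cx p c) +
    cz p a * (cx p b * cy p c - cy p b * cx p c)

/-- The triple is positively oriented. -/
def Pos (p : κ → ℝ × ℝ) (t : Tri κ) : Prop := 0 < D p t.1 t.2.1 t.2.2

/-- The region given by the orientations of some triples. -/
def reg (S : List (Tri κ)) : Set (κ → ℝ × ℝ) := {p | ∀ t ∈ S, Pos p t}

/-- renaming of the points of an element -/
def mE (f : κ → κ') : E κ → E κ' := Sum.map f id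

/-- renaming of the points of a triple -/
def mT (f : κ → κ') (t : Tri κ) : Tri κ' := (mE f t.1, mE f t.2.1, mE f t.2.2)

lemma cx_map (f : κ → κ') (p : κ' → ℝ × ℝ) (a : E κ) : cx p (mE f a) = cx (fun i => p (f i)) a := by
  rcases a with a | a <;> rfl

lemma cy_map (f : κ → κ') (p : κ' → ℝ × ℝ) (a : E κ) : cy p (mE f a) = cy (fun i => p (f i)) a := by
  rcases a with a | a <;> rfl

lemma cz_map (f : κ → κ') (p : κ' → ℝ × ℝ) (a : E κ) : cz p (mE f a) = cz (fun i => p (f i)) a := by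
  rcases a with a | a <;> rfl

lemma D_map (f : κ → κ') (p : κ' → ℝ × ℝ) (a b c : E κ) :
    D p (mE f a) (mE f b) (mE f c) = D (fun i => p (f i)) a b c := by
  simp only [D, cx_map, cy_map, cz_map]

lemma pos_map (f : κ → κ') (p : κ' → ℝ × ℝ) (t : Tri κ) : Pos p (mT f t) ↔ Pos (fun i => p (f i)) t := by
  simp only [Pos, mT, D_map]

lemma mem_reg_map (f : κ → κ') (p : κ' → ℝ × ℝ) (S : List (Tri κ)) :
    p ∈ reg (S.map (mT f)) ↔ (fun i => p (f i)) ∈ reg S := by
  simp only [reg, Set.mem_ofPred_eq, List.forall_mem_map, pos_map]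

lemma mem_reg_append (p : κ → ℝ × ℝ) (S S' : List (Tri κ)) : p ∈ reg (S ++ S') ↔ p ∈ reg S ∧ p ∈ reg S' := by
  simp only [reg, Set.mem_ofPred_eq, List.forall_mem_append]

lemma measurable_cx (a : E κ) : Measurable fun p : κ → ℝ × ℝ => cx p a := by
  rcases a with a | a
  · exact (measurable_pi_apply a).fst
  · exact measurable_const

lemma measurable_cy (a : E κ) : Measurable fun p : κ → ℝ × ℝ => cy p a := by
  rcases a with a | a
  · exact (measurable_pi_apply a).snd
  · exact measurable_const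

lemma measurable_cz (a : E κ) : Measurable fun p : κ → ℝ × ℝ => cz p a := by
  rcases a with a | a
  · exact measurable_const
  · exact measurable_const

lemma measurable_D (a b c : E κ) : Measurable fun p : κ → ℝ × ℝ => D p a b c := by
  unfold D
  exact (((measurable_cx a).mul (((measurable_cy b).mul (measurable_cz c)).sub ((measurable_cz b).mul (measurable_cy c)))).sub
    ((measurable_cy a).mul (((measurable_cx b).mul (measurable_cz c)).sub ((measurable_cz b).mul (measurable_cx c))))).add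
    ((measurable_cz a).mul (((measurable_cx b).mul (measurable_cy c)).sub ((measurable_cy b).mul (measurable_cx c))))

lemma measurableSet_reg (S : List (Tri κ)) : MeasurableSet (reg S) := by
  have h1 : reg S = ⋂ t ∈ {t | t ∈ S}, {p : κ → ℝ × ℝ | Pos p t} := by
    ext p
    simp [reg]
  rw [h1]
  refine MeasurableSet.biInter (List.finite_toSet S).countable fun t _ => ?_
  exact measurableSet_lt measurable_const (measurable_D _ _ _)

lemma measurable_elim' {α : Type} [MeasurableSpace α] {a : α → κ → ℝ × ℝ} {b : α → κ' → ℝ × ℝ} (ha : Measurable a)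
    (hb : Measurable b) : Measurable fun z => (Sum.elim (a z) (b z) : κ ⊕ κ' → ℝ × ℝ) := by
  rw [measurable_pi_iff]
  rintro (j | j)
  · exact (measurable_pi_apply j).comp ha
  · exact (measurable_pi_apply j).comp hb

/-- The function is the volume of the fibres of a region of configurations given by orientations. -/
def IsT (φ : (ι → ℝ × ℝ) → ENNReal) : Prop :=
  ∃ (κ : Type) (_ : Fintype κ) (S : List (Tri (ι ⊕ κ))),
    ∀ p, φ p = volume {q : κ → ℝ × ℝ | (Sum.elim p q : ι ⊕ κ → ℝ × ℝ) ∈ reg S}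

lemma IsT.congr {φ ψ : (ι → ℝ × ℝ) → ENNReal} (hφ : IsT φ) (h : ∀ p, ψ p = φ p) : IsT ψ := by
  have : ψ = φ := funext h
  rw [this]
  exact hφ

lemma IsT.measurable {φ : (ι → ℝ × ℝ) → ENNReal} (hφ : IsT φ) : Measurable φ := by
  obtain ⟨κ, _, S, h⟩ := hφ
  have h1 : φ = fun p => volume {q : κ → ℝ × ℝ | (Sum.elim p q : ι ⊕ κ → ℝ × ℝ) ∈ reg S} := funext h
  rw [h1]
  have h2 : MeasurableSet {z : (ι → ℝ × ℝ) × (κ → ℝ × ℝ) | (Sum.elim z.1 z.2 : ι ⊕ κ → ℝ × ℝ) ∈ reg S} :=
    (measurableSet_reg S).preimage (measurable_elim' measurable_fst measurable_snd)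
  exact measurable_measure_prodMk_left h2

/-- Renaming of the base points. -/
lemma IsT.comp {φ : (ι → ℝ × ℝ) → ENNReal} (hφ : IsT φ) (f : ι → ι') : IsT fun p : ι' → ℝ × ℝ => φ fun i => p (f i) := by
  obtain ⟨κ, _, S, h⟩ := hφ
  refine ⟨κ, inferInstance, S.map (mT (Sum.map f id)), fun p => ?_⟩
  beta_reduce
  rw [h]
  congr 1
  ext q
  rw [Set.mem_ofPred_eq, Set.mem_ofPred_eq, mem_reg_map]
  have h1 : (fun i => (Sum.elim p q : ι' ⊕ κ → ℝ × ℝ) (Sum.map f id i)) = Sum.elim (fun i => p (f i)) q := by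
    funext i
    rcases i with i | i <;> rfl
  rw [h1]

/-- Multiplication by the indicator function of a region. -/
lemma IsT.ind_mul {φ : (ι → ℝ × ℝ) → ENNReal} (hφ : IsT φ) (S₀ : List (Tri ι)) :
    IsT fun p => Q54.KZ.chi (p ∈ reg S₀) * φ p := by
  obtain ⟨κ, _, S, h⟩ := hφ
  refine ⟨κ, inferInstance, S₀.map (mT Sum.inl) ++ S, fun p => ?_⟩
  beta_reduce
  rw [h]
  by_cases hp : p ∈ reg S₀
  · rw [Q54.KZ.chi_pos hp, one_mul]
    congr 1
    ext q
    rw [Set.mem_ofPred_eq, Set.mem_ofPred_eq, mem_reg_append, mem_reg_map]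
    exact ⟨fun h1 => ⟨hp, h1⟩, fun h1 => h1.2⟩
  · rw [Q54.KZ.chi_neg hp, zero_mul]
    symm
    convert measure_empty (μ := (volume : Measure (κ → ℝ × ℝ)))
    ext q
    rw [Set.mem_ofPred_eq, mem_reg_append, mem_reg_map]
    exact ⟨fun h1 => hp h1.1, fun h1 => h1.elim⟩

lemma IsT.one : IsT fun _ : ι → ℝ × ℝ => 1 := by
  refine ⟨Empty, inferInstance, [], fun _ => ?_⟩
  simp [reg, volume_pi]

/-- The indicator function of a region. -/
lemma IsT.ind (S₀ : List (Tri ι)) : IsT fun p => Q54.KZ.chi (p ∈ reg S₀) :=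
  (IsT.one.ind_mul S₀).congr fun p => (mul_one _).symm

/-- Volumes of sets of configurations of two families of points. -/
lemma volume_sum' [Fintype κ] [Fintype κ'] {A : Set (κ ⊕ κ' → ℝ × ℝ)} (hA : MeasurableSet A) :
    volume A = ∫⁻ q : κ → ℝ × ℝ, volume {q' : κ' → ℝ × ℝ | (Sum.elim q q' : κ ⊕ κ' → ℝ × ℝ) ∈ A} := by
  have h1 := (volume_measurePreserving_sumPiEquivProdPi_symm (fun _ : κ ⊕ κ' => ℝ × ℝ)).measure_preimage hA.nullMeasurableSet
  rw [← h1, Measure.volume_eq_prod, Measure.prod_apply (hA.preimage (MeasurableEquiv.measurable _))]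
  rfl

/-- Integration over the positions of some points. -/
lemma IsT.int [Fintype κ] {ψ : (ι ⊕ κ → ℝ × ℝ) → ENNReal} (hψ : IsT ψ) :
    IsT fun p => ∫⁻ q : κ → ℝ × ℝ, ψ (Sum.elim p q) := by
  obtain ⟨κ', _, S, h⟩ := hψ
  let f : (ι ⊕ κ) ⊕ κ' → ι ⊕ (κ ⊕ κ') := Equiv.sumAssoc ι κ κ'
  refine ⟨κ ⊕ κ', inferInstance, S.map (mT f), fun p => ?_⟩
  have hm : MeasurableSet {z : κ ⊕ κ' → ℝ × ℝ | (Sum.elim p z : ι ⊕ (κ ⊕ κ') → ℝ × ℝ) ∈ reg (S.map (mT f))} :=
    (measurableSet_reg _).preimage (measurable_elim' measurable_const measurable_id)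
  rw [volume_sum' hm]
  refine lintegral_congr fun q => ?_
  rw [h]
  congr 1
  ext q'
  rw [Set.mem_ofPred_eq, Set.mem_ofPred_eq, Set.mem_ofPred_eq, mem_reg_map]
  have h1 : (fun i => (Sum.elim p (Sum.elim q q') : ι ⊕ (κ ⊕ κ') → ℝ × ℝ) (f i)) = Sum.elim (Sum.elim p q) q' := by
    funext i
    rcases i with (i | i) | i <;> rfl
  rw [h1]

/-- Products. -/
lemma IsT.mul {φ ψ : (ι → ℝ × ℝ) → ENNReal} (hφ : IsT φ) (hψ : IsT ψ) : IsT fun p => φ p * ψ p := by
  obtain ⟨κ, _, S, h⟩ := hφ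
  have h1 := (hψ.comp (Sum.inl : ι → ι ⊕ κ)).ind_mul S
  refine h1.int.congr fun p => ?_
  simp only [Sum.elim_inl]
  have h2 : MeasurableSet {q : κ → ℝ × ℝ | (Sum.elim p q : ι ⊕ κ → ℝ × ℝ) ∈ reg S} :=
    (measurableSet_reg S).preimage (measurable_elim' measurable_const measurable_id)
  rw [lintegral_mul_const _ (Q54.KZ.measurable_chi h2)]
  congr 1
  rw [h, ← Q54.KZ.lintegral_chi h2]

/-- Integration over the position of one point. -/
lemma IsT.int1 {ψ : (ι ⊕ Unit → ℝ × ℝ) → ENNReal} (hψ : IsT ψ) :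
    IsT fun p => ∫⁻ z : ℝ × ℝ, ψ (Sum.elim p fun _ => z) := by
  refine hψ.int.congr fun p => ?_
  exact ((volume_preserving_funUnique Unit (ℝ × ℝ)).symm.lintegral_comp_emb
    (MeasurableEquiv.funUnique Unit (ℝ × ℝ)).symm.measurableEmbedding (fun q => ψ (Sum.elim p q))).symm ▸ rfl

end Pool.Agent.Helper8.OT
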