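import Pool.Agent.Helper8.OT.Basic

/-!
# Integrals of truncated powers of affine functions
-/

set_option autoImplicit false

namespace Pool.Agent.Helper8.OT

open MeasureTheory Q54.KZ

/-- The truncated power `t_+ ^ N / (N! K)`. -/
noncomputable def pw (N : ℕ) (K t : ℝ) : ENNReal := if 0 < t then ENNReal.ofReal (t ^ N / (N.factorial * K)) else 0

lemma measurable_pw (N : ℕ) (K : ℝ) : Measurable (pw N K) := by
  refine Measurable.ite measurableSet_Ioi ?_ measurable_const
  fun_prop

lemma pw_pos {N : ℕ} {K t : ℝ} (h : 0 < t) : pw N K t = ENNReal.ofReal (t ^ N / (N.factorial * K)) := if_pos h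

lemma pw_neg {N : ℕ} {K t : ℝ} (h : ¬ 0 < t) : pw N K t = 0 := if_neg h

lemma measurable_chi_lt {α : Type} [MeasurableSpace α] {f g : α → ℝ} (hf : Measurable f) (hg : Measurable g) :
    Measurable fun a => chi (f a < g a) := measurable_chi (measurableSet_lt hf hg)

/-- The integral of a truncated power over a half line. -/
theorem int_pw {a K : ℝ} (ha : 0 < a) (hK : 0 < K) (N : ℕ) (b y : ℝ) :
    ∫⁻ r, chi (r < y) * pw N K (a * r + b) = pw (N + 1) (K * a) (a * y + b) := by
  by_cases h : 0 < a * y + b
  · have h1 : (fun r => chi (r < y) * pw N K (a * r + b)) =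
        (Set.Ioo (-b / a) y).indicator fun r => ENNReal.ofReal ((a * r + b) ^ N / (N.factorial * K)) := by
      funext r
      have h3 : 0 < a * r + b ↔ -b / a < r := by
        rw [div_lt_iff₀ ha]
        constructor <;> intro h4 <;> linarith
      by_cases hr : r < y
      · by_cases h2 : 0 < a * r + b
        · rw [chi_pos hr, one_mul, pw_pos h2, Set.indicator_of_mem]
          exact ⟨h3.1 h2, hr⟩
        · rw [pw_neg h2, mul_zero, Set.indicator_of_notMem]
          exact fun h4 => h2 (h3.2 h4.1)
      · rw [chi_neg hr, zero_mul, Set.indicator_of_notMem]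
        exact fun h4 => hr h4.2
    have hle : -b / a ≤ y := by
      rw [div_le_iff₀ ha]
      linarith
    rw [h1, lintegral_indicator measurableSet_Ioo, pw_pos h]
    have hK' : 0 < (N.factorial : ℝ) * K := by positivity
    have h4 : ∀ r ∈ Set.Ioo (-b / a) y, 0 ≤ (a * r + b) ^ N / (N.factorial * K) := by
      intro r hr
      have h5 : 0 < a * r + b := by
        have := (div_lt_iff₀ ha).1 hr.1
        linarith
      positivity
    rw [← ofReal_integral_eq_lintegral_ofReal]
    · congr 1
      rw [← integral_Ioc_eq_integral_Ioo, ← intervalIntegral.integral_of_le hle]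
      have h5 : ∀ r ∈ Set.uIcc (-b / a) y, HasDerivAt (fun r => (a * r + b) ^ (N + 1) / ((N + 1).factorial * (K * a)))
          ((a * r + b) ^ N / (N.factorial * K)) r := by
        intro r _
        have h6 : HasDerivAt (fun r => a * r + b) a r := by
          simpa using ((hasDerivAt_id r).const_mul a).add_const b
        have h7 := (h6.pow (N + 1)).div_const ((N + 1).factorial * (K * a))
        refine h7.congr_deriv ?_
        rw [Nat.factorial_succ]
        push_cast
        have h8 : (N : ℝ) + 1 ≠ 0 := by positivity
        have h9 : (N.factorial : ℝ) ≠ 0 := by positivity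
        field_simp
      rw [intervalIntegral.integral_eq_sub_of_hasDerivAt h5 (Continuous.intervalIntegrable (by fun_prop) _ _)]
      have h6 : a * (-b / a) + b = 0 := by
        rw [mul_div_cancel₀ _ ha.ne', neg_add_cancel]
      rw [h6, zero_pow (Nat.succ_ne_zero N), zero_div, sub_zero]
    · exact (Continuous.integrableOn_Icc (by fun_prop)).mono_set Set.Ioo_subset_Icc_self
    · exact (ae_restrict_iff' measurableSet_Ioo).2 (Filter.Eventually.of_forall h4)
  · rw [pw_neg h]
    have h1 : (fun r => chi (r < y) * pw N K (a * r + b)) = fun _ => 0 := by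
      funext r
      by_cases hr : r < y
      · rw [pw_neg, mul_zero]
        have := mul_lt_mul_of_pos_left hr ha
        linarith
      · rw [chi_neg hr, zero_mul]
    rw [h1, lintegral_zero]

/-- The integral of a truncated power over a half line. -/
theorem int_pw' {a K : ℝ} (ha : 0 < a) (hK : 0 < K) (N : ℕ) (b y : ℝ) :
    ∫⁻ r, chi (y < r) * pw N K (b - a * r) = pw (N + 1) (K * a) (b - a * y) := by
  have h1 := int_pw ha hK N b (-y)
  rw [← lintegral_neg_eq_self (μ := (volume : Measure ℝ))] at h1
  rw [show b - a * y = a * -y + b by ring, ← h1]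
  refine lintegral_congr fun r => ?_
  rw [show a * -r + b = b - a * r by ring]
  congr 2
  exact propext neg_lt_neg_iff.symm

lemma lintegral_pt {f : ℝ × ℝ → ENNReal} (hf : Measurable f) : ∫⁻ z, f z = ∫⁻ a, ∫⁻ b, f (a, b) :=
  lintegral_prod _ hf.aemeasurable

lemma lintegral_pt' {f : ℝ × ℝ → ENNReal} (hf : Measurable f) : ∫⁻ z, f z = ∫⁻ b, ∫⁻ a, f (a, b) :=
  lintegral_prod_symm' _ hf

/-- Points to the left of a vertical line and below a line. -/
theorem int_below {α A K : ℝ} (hα : 0 < α) (hA : 0 < A) (hK : 0 < K) (N : ℕ) (β B y : ℝ) :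
    ∫⁻ r : ℝ × ℝ, chi (r.1 < y) * (chi (r.2 < α * r.1 + β) * pw N K (A * r.2 + B)) =
      pw (N + 2) (K * A * (A * α)) (A * α * y + (A * β + B)) := by
  rw [lintegral_pt]
  · have h1 : ∀ a, (∫⁻ b, chi (a < y) * (chi (b < α * a + β) * pw N K (A * b + B))) =
        chi (a < y) * pw (N + 1) (K * A) (A * α * a + (A * β + B)) := by
      intro a
      have hm : Measurable fun b : ℝ => chi (b < α * a + β) * pw N K (A * b + B) :=
        (measurable_chi_lt measurable_id measurable_const).mul ((measurable_pw N K).comp (by fun_prop))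
      rw [lintegral_const_mul _ hm, int_pw hA hK]
      congr 2
      ring
    simp only [h1]
    rw [int_pw (by positivity) (by positivity)]
  · exact (measurable_chi_lt measurable_fst measurable_const).mul
      ((measurable_chi_lt measurable_snd (by fun_prop)).mul ((measurable_pw N K).comp (by fun_prop)))

/-- Points below a horizontal line and above a line. -/
theorem int_above {α A K : ℝ} (hα : 0 < α) (hA : 0 < A) (hK : 0 < K) (N : ℕ) (β B y : ℝ) :
    ∫⁻ r : ℝ × ℝ, chi (r.2 < y) * (chi (α * r.1 + β < r.2) * pw N K (A * r.1 + B)) =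
      pw (N + 2) (K * A * (A / α)) (A / α * y + (B - A * β / α)) := by
  rw [lintegral_pt']
  · have h1 : ∀ b, (∫⁻ a, chi (b < y) * (chi (α * a + β < b) * pw N K (A * a + B))) =
        chi (b < y) * pw (N + 1) (K * A) (A / α * b + (B - A * β / α)) := by
      intro b
      have hm : Measurable fun a : ℝ => chi (α * a + β < b) * pw N K (A * a + B) :=
        (measurable_chi_lt (by fun_prop) measurable_const).mul ((measurable_pw N K).comp (by fun_prop))
      rw [lintegral_const_mul _ hm]
      have h2 : ∀ a : ℝ, (α * a + β < b) = (a < (b - β) / α) := by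
        intro a
        rw [lt_div_iff₀ hα]
        refine propext ⟨fun h => by linarith, fun h => by linarith⟩
      simp only [h2]
      rw [int_pw hA hK]
      congr 2
      field_simp
      ring
    simp only [h1]
    rw [int_pw (by positivity) (by positivity)]
  · exact (measurable_chi_lt measurable_snd measurable_const).mul
      ((measurable_chi_lt (by fun_prop) measurable_snd).mul ((measurable_pw N K).comp (by fun_prop)))

lemma lintegral_scale {c : ℝ} (hc : 0 < c) {h : ℝ → ENNReal} (hh : Measurable h) :
    ∫⁻ b, h (c * b) = ENNReal.ofReal c⁻¹ * ∫⁻ s, h s := by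
  have h1 : ∫⁻ b, h (c * b) = ∫⁻ s, h s ∂(Measure.map (fun b => c * b) (volume : Measure ℝ)) :=
    (lintegral_map hh (by fun_prop)).symm
  rw [h1, Real.map_volume_mul_left hc.ne', lintegral_smul_measure, abs_of_pos (inv_pos.2 hc)]
  rfl

/-- The slope of a point in a vertical strip is uniformly distributed. -/
theorem int_slope {g : ℝ → ENNReal} (hg : Measurable g) :
    ∫⁻ z : ℝ × ℝ, chi ((0 < z.1 ∧ z.1 < 1) ∧ 0 < z.2) * g (z.2 / z.1) =
      ENNReal.ofReal (1 / 2) * ∫⁻ s, chi (0 < s) * g s := by
  rw [lintegral_pt]
  · have h1 : ∀ a, (∫⁻ b, chi ((0 < a ∧ a < 1) ∧ 0 < b) * g (b / a)) =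
        (chi (a < 1) * pw 1 1 (1 * a + 0)) * ∫⁻ s, chi (0 < s) * g s := by
      intro a
      by_cases ha : 0 < a
      · by_cases ha1 : a < 1
        · have h2 : ∀ b, chi ((0 < a ∧ a < 1) ∧ 0 < b) = chi (0 < b / a) := by
            intro b
            congr 1
            refine propext ⟨fun h => div_pos h.2 ha, fun h => ⟨⟨ha, ha1⟩, ?_⟩⟩
            have := mul_pos h ha
            rwa [div_mul_cancel₀ _ ha.ne'] at this
          simp only [h2]
          have h3 : ∀ b : ℝ, b / a = a⁻¹ * b := fun b => by rw [div_eq_inv_mul]
          simp only [h3]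
          rw [lintegral_scale (inv_pos.2 ha) (h := fun s => chi (0 < s) * g s)
            ((measurable_chi_lt measurable_const measurable_id).mul hg), chi_pos ha1, one_mul, inv_inv,
            pw_pos (by linarith)]
          norm_num
        · rw [chi_neg ha1, zero_mul, zero_mul]
          have h2 : ∀ b : ℝ, chi ((0 < a ∧ a < 1) ∧ 0 < b) * g (b / a) = 0 := by
            intro b
            rw [chi_neg fun h => ha1 h.1.2, zero_mul]
          simp only [h2, lintegral_zero]
      · rw [pw_neg (by linarith), mul_zero, zero_mul]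
        have h2 : ∀ b : ℝ, chi ((0 < a ∧ a < 1) ∧ 0 < b) * g (b / a) = 0 := by
          intro b
          rw [chi_neg fun h => ha h.1.1, zero_mul]
        simp only [h2, lintegral_zero]
    simp only [h1]
    have hm : Measurable fun a : ℝ => chi (a < 1) * pw 1 1 (1 * a + 0) :=
      (measurable_chi_lt measurable_id measurable_const).mul ((measurable_pw 1 1).comp (by fun_prop))
    rw [lintegral_mul_const _ hm, int_pw one_pos one_pos, pw_pos (by norm_num)]
    norm_num
  · refine (measurable_chi ?_).mul (hg.comp (by fun_prop))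
    exact ((measurableSet_lt measurable_const measurable_fst).inter (measurableSet_lt measurable_fst measurable_const)).inter
      (measurableSet_lt measurable_const measurable_snd)

end Pool.Agent.Helper8.OT
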