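import Pool.Agent.Helper8.OT.Calc

/-!
# Words in the affine maps given by the lines of a configuration
-/

set_option autoImplicit false

namespace Pool.Agent.Helper8.OT

open MeasureTheory Q54.KZ

variable {ι J κ' : Type}

/-- The lines: the diagonal, the line through the origin and a point, the line through a point and `(1, 1)`. -/
inductive Ln (J : Type)
  | diag : Ln J
  | sl : J → Ln J
  | up : J → Ln J

/-- the left point of the line -/
def eA : Ln J → E J
  | Ln.diag => Sum.inr 2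
  | Ln.sl _ => Sum.inr 2
  | Ln.up j => Sum.inl j

/-- the right point of the line -/
def eB : Ln J → E J
  | Ln.diag => Sum.inr 3
  | Ln.sl j => Sum.inl j
  | Ln.up _ => Sum.inr 3

/-- the determinant of two elements and the point `r` -/
def dd (p : J → ℝ × ℝ) (a b : E J) (r : ℝ × ℝ) : ℝ :=
  cx p a * (cy p b - cz p b * r.2) - cy p a * (cx p b - cz p b * r.1) + cz p a * (cx p b * r.2 - cy p b * r.1)

lemma D_dd (p : κ' → ℝ × ℝ) (g : J → κ') (a b : E J) (k : κ') :
    D p (mE g a) (mE g b) (Sum.inl k) = dd (fun i => p (g i)) a b (p k) := by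
  simp only [D, dd, cx_map, cy_map, cz_map]
  simp only [cx, cy, cz]
  ring

/-- the point is below the line -/
def bel (p : J → ℝ × ℝ) (L : Ln J) (r : ℝ × ℝ) : Prop := 0 < dd p (eB L) (eA L) r

/-- the point is above the line -/
def abv (p : J → ℝ × ℝ) (L : Ln J) (r : ℝ × ℝ) : Prop := 0 < dd p (eA L) (eB L) r

/-- The volume of the region of the points of a word. -/
noncomputable def V : List (Ln J × Ln J) → (J → ℝ × ℝ) → ℝ → ENNReal
  | [], _, y => chi (0 < y)
  | l :: w, p, y => ∫⁻ r : ℝ × ℝ, ∫⁻ r' : ℝ × ℝ,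
      chi (r.1 < y) * (chi (bel p l.1 r) * (chi (r'.2 < r.2) * (chi (abv p l.2 r') * V w p r'.1)))

lemma chi_cons (p : J → ℝ × ℝ) (t : Tri J) (S : List (Tri J)) :
    chi (p ∈ reg (t :: S)) = chi (Pos p t) * chi (p ∈ reg S) := by
  rw [← chi_and]
  congr 1
  simp only [reg, Set.mem_ofPred_eq, List.forall_mem_cons]

lemma chi_nil (p : J → ℝ × ℝ) : chi (p ∈ reg []) = 1 := by
  rw [chi_pos]
  simp [reg]

/-- the direction of the first axis -/
abbrev e1 : E J := Sum.inr 0
/-- the direction of the second axis -/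
abbrev e2 : E J := Sum.inr 1
/-- the origin -/
abbrev oo : E J := Sum.inr 2
/-- the point `(1, 1)` -/
abbrev uu : E J := Sum.inr 3

@[simp] lemma cx_inl (p : J → ℝ × ℝ) (j : J) : cx p (Sum.inl j) = (p j).1 := rfl
@[simp] lemma cy_inl (p : J → ℝ × ℝ) (j : J) : cy p (Sum.inl j) = (p j).2 := rfl
@[simp] lemma cz_inl (p : J → ℝ × ℝ) (j : J) : cz p (Sum.inl j) = 1 := rfl
@[simp] lemma cx_e1 (p : J → ℝ × ℝ) : cx p (Sum.inr 0) = 1 := rfl
@[simp] lemma cx_e2 (p : J → ℝ × ℝ) : cx p (Sum.inr 1) = 0 := rfl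
@[simp] lemma cx_oo (p : J → ℝ × ℝ) : cx p (Sum.inr 2) = 0 := rfl
@[simp] lemma cx_uu (p : J → ℝ × ℝ) : cx p (Sum.inr 3) = 1 := rfl
@[simp] lemma cy_e1 (p : J → ℝ × ℝ) : cy p (Sum.inr 0) = 0 := rfl
@[simp] lemma cy_e2 (p : J → ℝ × ℝ) : cy p (Sum.inr 1) = 1 := rfl
@[simp] lemma cy_oo (p : J → ℝ × ℝ) : cy p (Sum.inr 2) = 0 := rfl
@[simp] lemma cy_uu (p : J → ℝ × ℝ) : cy p (Sum.inr 3) = 1 := rfl
@[simp] lemma cz_e1 (p : J → ℝ × ℝ) : cz p (Sum.inr 0) = 0 := rfl
@[simp] lemma cz_e2 (p : J → ℝ × ℝ) : cz p (Sum.inr 1) = 0 := rfl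
@[simp] lemma cz_oo (p : J → ℝ × ℝ) : cz p (Sum.inr 2) = 1 := rfl
@[simp] lemma cz_uu (p : J → ℝ × ℝ) : cz p (Sum.inr 3) = 1 := rfl

lemma D_e2 (p : J → ℝ × ℝ) (a b : E J) : D p a b e2 = cz p a * cx p b - cx p a * cz p b := by
  simp only [D, cx, cy, cz]
  norm_num
  ring

lemma D_e1 (p : J → ℝ × ℝ) (a b : E J) : D p a b e1 = cy p a * cz p b - cz p a * cy p b := by
  simp only [D, cx, cy, cz]
  norm_num
  ring

/-- The volumes of the regions of words are volumes of fibres. -/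
theorem isT_V (w : List (Ln J × Ln J)) : ∀ {ι' : Type} (f : J → ι') (b : E ι') (_ : ∀ p : ι' → ℝ × ℝ, cz p b = 1),
    IsT fun p : ι' → ℝ × ℝ => V w (fun i => p (f i)) (cx p b) := by
  induction w with
  | nil =>
    intro ι' f b hb
    refine (IsT.ind [(oo, b, e2)]).congr fun p => ?_
    rw [chi_cons, chi_nil, mul_one]
    simp only [V, Pos, D_e2]
    congr 2
    simp [cx, cz]
  | cons l w ih =>
    intro ι' f b hb
    have h1 := ih (ι' := (ι' ⊕ Unit) ⊕ Unit) (fun i => Sum.inl (Sum.inl (f i))) (Sum.inl (Sum.inr ())) fun _ => rfl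
    let g : ι' → (ι' ⊕ Unit) ⊕ Unit := fun i => Sum.inl (Sum.inl i)
    let f' : J → (ι' ⊕ Unit) ⊕ Unit := fun i => Sum.inl (Sum.inl (f i))
    let r : (ι' ⊕ Unit) ⊕ Unit := Sum.inl (Sum.inr ())
    let r' : (ι' ⊕ Unit) ⊕ Unit := Sum.inr ()
    have h2 := (h1.ind_mul [(Sum.inl r, mE g b, e2), (mE f' (eB l.1), mE f' (eA l.1), Sum.inl r), (Sum.inl r, Sum.inl r', e1),
      (mE f' (eA l.2), mE f' (eB l.2), Sum.inl r')]).int1.int1
    refine h2.congr fun p => ?_
    rw [V]
    refine lintegral_congr fun z => lintegral_congr fun z' => ?_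
    rw [chi_cons, chi_cons, chi_cons, chi_cons, chi_nil, mul_one]
    simp only [Pos, D_e2, D_e1, D_dd, cx_map, cz_map, hb]
    simp only [bel, abv, cx, cy, cz, r, r', g, f', Sum.elim_inl, Sum.elim_inr, one_mul, mul_one, mul_assoc, sub_pos]

/-- the slope of a line -/
noncomputable def al (p : J → ℝ × ℝ) : Ln J → ℝ
  | Ln.diag => 1
  | Ln.sl j => (p j).2 / (p j).1
  | Ln.up j => (1 - (p j).2) / (1 - (p j).1)

/-- the value at zero -/
noncomputable def be (p : J → ℝ × ℝ) : Ln J → ℝ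
  | Ln.diag => 0
  | Ln.sl _ => 0
  | Ln.up j => 1 - (1 - (p j).2) / (1 - (p j).1)

/-- the condition for the position of the point of a line -/
def ok (p : J → ℝ × ℝ) : Ln J → Prop
  | Ln.diag => True
  | Ln.sl j => 0 < (p j).1 ∧ 0 < (p j).2
  | Ln.up j => (p j).1 < 1 ∧ (p j).2 < 1

lemma al_pos {p : J → ℝ × ℝ} {L : Ln J} (h : ok p L) : 0 < al p L := by
  cases L with
  | diag => exact one_pos
  | sl j => exact div_pos h.2 h.1
  | up j => exact div_pos (sub_pos.2 h.2) (sub_pos.2 h.1)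

lemma dd_eq {p : J → ℝ × ℝ} {L : Ln J} (h : ok p L) (r : ℝ × ℝ) : ∃ c : ℝ, 0 < c ∧
    dd p (eA L) (eB L) r = c * (r.2 - (al p L * r.1 + be p L)) ∧
    dd p (eB L) (eA L) r = c * (al p L * r.1 + be p L - r.2) := by
  cases L with
  | diag =>
    refine ⟨1, one_pos, ?_, ?_⟩ <;>
    · simp [dd, eA, eB, cx, cy, cz, al, be]
      try ring
  | sl j =>
    obtain ⟨h1, h2⟩ := h
    have h3 := h1.ne'
    refine ⟨(p j).1, h1, ?_, ?_⟩ <;>
    · simp [dd, eA, eB, cx, cy, cz, al, be]
      field_simp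
      try ring
  | up j =>
    obtain ⟨h1, h2⟩ := h
    have h3 : 1 - (p j).1 ≠ 0 := by linarith
    refine ⟨1 - (p j).1, by linarith, ?_, ?_⟩ <;>
    · simp [dd, eA, eB, cx, cy, cz, al, be]
      field_simp
      ring

lemma abv_iff {p : J → ℝ × ℝ} {L : Ln J} (h : ok p L) (r : ℝ × ℝ) : abv p L r ↔ al p L * r.1 + be p L < r.2 := by
  obtain ⟨c, h1, h2, -⟩ := dd_eq h r
  rw [abv, h2, mul_pos_iff_of_pos_left h1, sub_pos]

lemma bel_iff {p : J → ℝ × ℝ} {L : Ln J} (h : ok p L) (r : ℝ × ℝ) : bel p L r ↔ r.2 < al p L * r.1 + be p L := by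
  obtain ⟨c, h1, -, h2⟩ := dd_eq h r
  rw [bel, h2, mul_pos_iff_of_pos_left h1, sub_pos]

/-- the slope of the affine map of a word -/
noncomputable def cA (p : J → ℝ × ℝ) : List (Ln J × Ln J) → ℝ
  | [] => 1
  | l :: w => cA p w / al p l.2 * al p l.1

/-- the value at zero of the affine map of a word -/
noncomputable def cB (p : J → ℝ × ℝ) : List (Ln J × Ln J) → ℝ
  | [] => 0
  | l :: w => cA p w / al p l.2 * be p l.1 + (cB p w - cA p w * be p l.2 / al p l.2)

/-- the product of the coefficients of the noise -/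
noncomputable def cK (p : J → ℝ × ℝ) : List (Ln J × Ln J) → ℝ
  | [] => 1
  | l :: w => cK p w * cA p w * (cA p w / al p l.2) * (cA p w / al p l.2) * (cA p w / al p l.2 * al p l.1)

/-- the lines of the word are in good position -/
def okw (p : J → ℝ × ℝ) (w : List (Ln J × Ln J)) : Prop := ∀ l ∈ w, ok p l.1 ∧ ok p l.2

/-- **The volume of the region of a word.** -/
theorem V_eq (p : J → ℝ × ℝ) (w : List (Ln J × Ln J)) (h : okw p w) : 0 < cA p w ∧ 0 < cK p w ∧
    ∀ y, V w p y = pw (4 * w.length) (cK p w) (cA p w * y + cB p w) := by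
  induction w with
  | nil =>
    refine ⟨one_pos, one_pos, fun y => ?_⟩
    simp only [V, cA, cB, cK, List.length_nil, mul_zero, one_mul, add_zero]
    by_cases hy : 0 < y
    · rw [chi_pos hy, pw_pos hy]
      simp
    · rw [chi_neg hy, pw_neg hy]
  | cons l w ih =>
    obtain ⟨hA, hK, hV⟩ := ih fun l' hl' => h l' (List.mem_cons_of_mem _ hl')
    obtain ⟨h1, h2⟩ := h l List.mem_cons_self
    have h3 := al_pos h1
    have h4 := al_pos h2
    refine ⟨by simp only [cA]; positivity, by simp only [cK]; positivity, fun y => ?_⟩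
    rw [V]
    simp only [hV, abv_iff h2, bel_iff h1]
    have hm : Measurable fun r' : ℝ × ℝ =>
        chi (al p l.2 * r'.1 + be p l.2 < r'.2) * pw (4 * w.length) (cK p w) (cA p w * r'.1 + cB p w) :=
      (measurable_chi_lt (by fun_prop) (by fun_prop)).mul ((measurable_pw _ _).comp (by fun_prop))
    have h5 : ∀ r : ℝ × ℝ, (∫⁻ r' : ℝ × ℝ, chi (r.1 < y) * (chi (r.2 < al p l.1 * r.1 + be p l.1) *
        (chi (r'.2 < r.2) * (chi (al p l.2 * r'.1 + be p l.2 < r'.2) *
          pw (4 * w.length) (cK p w) (cA p w * r'.1 + cB p w))))) =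
        chi (r.1 < y) * (chi (r.2 < al p l.1 * r.1 + be p l.1) * pw (4 * w.length + 2)
          (cK p w * cA p w * (cA p w / al p l.2)) (cA p w / al p l.2 * r.2 + (cB p w - cA p w * be p l.2 / al p l.2))) := by
      intro r
      have hm1 : Measurable fun r' : ℝ × ℝ => chi (r'.2 < r.2) * (chi (al p l.2 * r'.1 + be p l.2 < r'.2) *
          pw (4 * w.length) (cK p w) (cA p w * r'.1 + cB p w)) :=
        (measurable_chi_lt (by fun_prop) (by fun_prop)).mul hm
      rw [lintegral_const_mul _ (hm1.const_mul _), lintegral_const_mul _ hm1, int_above h4 hA hK]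
    simp only [h5]
    rw [int_below h3 (by positivity) (by positivity)]
    simp only [cA, cB, cK, List.length_cons]
    congr 1

lemma cA_append (p : J → ℝ × ℝ) (w w' : List (Ln J × Ln J)) : cA p (w ++ w') = cA p w' * cA p w := by
  induction w with
  | nil => simp [cA]
  | cons l w ih =>
    simp only [List.cons_append, cA, ih]
    ring

lemma cB_append (p : J → ℝ × ℝ) (w w' : List (Ln J × Ln J)) : cB p (w ++ w') = cA p w' * cB p w + cB p w' := by
  induction w with
  | nil => simp [cB]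
  | cons l w ih =>
    simp only [List.cons_append, cB, ih, cA_append]
    ring

end Pool.Agent.Helper8.OT
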