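import Pool.Agent.Helper8.OT.Words

/-!
# The indicator functions of regions given by polynomial inequalities between the slopes
-/

set_option autoImplicit false

namespace Pool.Agent.Helper8.OT

open MeasureTheory Q54.KZ

variable {ι J κ' : Type}

/-- the domain: points above the open unit interval of the first axis -/
noncomputable def domS (ι : Type) [Fintype ι] : List (Tri ι) :=
  Finset.univ.toList.flatMap fun i : ι => [(oo, Sum.inl i, e2), (Sum.inl i, uu, e2), (Sum.inl i, oo, e1)]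

lemma mem_domS [Fintype ι] {p : ι → ℝ × ℝ} :
    p ∈ reg (domS ι) ↔ ∀ i, (0 < (p i).1 ∧ (p i).1 < 1) ∧ 0 < (p i).2 := by
  simp only [reg, domS, Set.mem_ofPred_eq, List.mem_flatMap, Finset.mem_toList, Finset.mem_univ, true_and,
    forall_exists_index]
  constructor
  · intro h i
    have h1 := h _ i (List.mem_cons_self)
    have h2 := h _ i (List.mem_cons_of_mem _ List.mem_cons_self)
    have h3 := h _ i (List.mem_cons_of_mem _ (List.mem_cons_of_mem _ List.mem_cons_self))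
    simp [Pos, D_e1, D_e2] at h1 h2 h3
    exact ⟨⟨h1, h2⟩, h3⟩
  · intro h t i ht
    obtain ⟨⟨h1, h2⟩, h3⟩ := h i
    simp only [List.mem_cons, List.not_mem_nil, or_false] at ht
    rcases ht with rfl | rfl | rfl
    · simpa [Pos, D_e1, D_e2] using h1
    · simpa [Pos, D_e1, D_e2] using h2
    · simpa [Pos, D_e1, D_e2] using h3

/-- the conditions for a point below the diagonal -/
def lowS : List (Tri (ι ⊕ Unit)) :=
  [(oo, Sum.inl (Sum.inr ()), e2), (Sum.inl (Sum.inr ()), uu, e2), (Sum.inl (Sum.inr ()), oo, e1),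
    (uu, oo, Sum.inl (Sum.inr ()))]

/-- the conditions for a point above the diagonal -/
def uppS : List (Tri (ι ⊕ Unit)) :=
  [(oo, Sum.inl (Sum.inr ()), e2), (uu, Sum.inl (Sum.inr ()), e1), (oo, uu, Sum.inl (Sum.inr ()))]

lemma mem_lowS {p : ι ⊕ Unit → ℝ × ℝ} : p ∈ reg (lowS (ι := ι)) ↔
    ((0 < (p (Sum.inr ())).1 ∧ (p (Sum.inr ())).1 < 1) ∧ 0 < (p (Sum.inr ())).2) ∧
      (p (Sum.inr ())).2 < (p (Sum.inr ())).1 := by
  simp only [reg, lowS, Set.mem_ofPred_eq, List.forall_mem_cons, Pos, D_e1, D_e2, D]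
  simp
  tauto

lemma mem_uppS {p : ι ⊕ Unit → ℝ × ℝ} : p ∈ reg (uppS (ι := ι)) ↔
    (0 < (p (Sum.inr ())).1 ∧ (p (Sum.inr ())).2 < 1) ∧ (p (Sum.inr ())).1 < (p (Sum.inr ())).2 := by
  simp only [reg, uppS, Set.mem_ofPred_eq, List.forall_mem_cons, Pos, D_e1, D_e2, D]
  simp
  tauto

lemma measurable_xs (i : ι) : Measurable fun p : ι → ℝ × ℝ => xs p i :=
  (measurable_pi_apply i).snd.div (measurable_pi_apply i).fst

lemma pw_mul {N : ℕ} {a b : ℝ} (hb : 0 < b) : pw N 1 (a * b) = pw N 1 a * ENNReal.ofReal (b ^ N) := by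
  by_cases ha : 0 < a
  · rw [pw_pos (mul_pos ha hb), pw_pos ha, ← ENNReal.ofReal_mul (by positivity), mul_pow]
    congr 1
    ring
  · rw [pw_neg ha, pw_neg, zero_mul]
    exact fun h => ha (pos_of_mul_pos_left h hb.le)

/-- the average of a power over the points below the diagonal -/
lemma int_low (N : ℕ) : ∫⁻ z : ℝ × ℝ, chi (((0 < z.1 ∧ z.1 < 1) ∧ 0 < z.2) ∧ z.2 < z.1) *
    ENNReal.ofReal ((1 - z.2 / z.1) ^ N) = ENNReal.ofReal (1 / (2 * (N + 1))) := by
  have h1 : ∀ z : ℝ × ℝ, chi (((0 < z.1 ∧ z.1 < 1) ∧ 0 < z.2) ∧ z.2 < z.1) * ENNReal.ofReal ((1 - z.2 / z.1) ^ N) =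
      chi ((0 < z.1 ∧ z.1 < 1) ∧ 0 < z.2) * ((N.factorial : ℕ) * pw N 1 (1 - 1 * (z.2 / z.1))) := by
    intro z
    by_cases hz : (0 < z.1 ∧ z.1 < 1) ∧ 0 < z.2
    · by_cases hz' : z.2 < z.1
      · have h2 : 0 < 1 - z.2 / z.1 := by
          rw [sub_pos, div_lt_one hz.1.1]
          exact hz'
        rw [one_mul, chi_pos ⟨hz, hz'⟩, chi_pos hz, pw_pos h2, ← ENNReal.ofReal_natCast, ← ENNReal.ofReal_mul (by positivity)]
        congr 2
        field_simp
      · have h2 : ¬ 0 < 1 - z.2 / z.1 := by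
          rw [sub_pos, div_lt_one hz.1.1]
          exact hz'
        rw [one_mul, chi_neg fun h => hz' h.2, pw_neg h2]
        simp
    · rw [chi_neg fun h => hz h.1, chi_neg hz]
      simp
  simp only [h1]
  have hg : Measurable fun s : ℝ => ((N.factorial : ℕ) : ENNReal) * pw N 1 (1 - 1 * s) :=
    ((measurable_pw N 1).comp (by fun_prop)).const_mul _
  rw [int_slope hg]
  have h2 : ∀ s : ℝ, chi (0 < s) * (((N.factorial : ℕ) : ENNReal) * pw N 1 (1 - 1 * s)) =
      ((N.factorial : ℕ) : ENNReal) * (chi (0 < s) * pw N 1 (1 - 1 * s)) := by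
    intro s
    ring
  simp only [h2]
  have hm : Measurable fun s : ℝ => chi (0 < s) * pw N 1 (1 - 1 * s) :=
    (measurable_chi_lt (by fun_prop) (by fun_prop)).mul ((measurable_pw N 1).comp (by fun_prop))
  rw [lintegral_const_mul _ hm, int_pw' one_pos one_pos, pw_pos (by norm_num), ← ENNReal.ofReal_natCast,
    ← ENNReal.ofReal_mul (by positivity), ← ENNReal.ofReal_mul (by positivity)]
  congr 1
  rw [Nat.factorial_succ]
  push_cast
  field_simp
  norm_num

/-- the average of a power over the points above the diagonal -/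
lemma int_upp (N : ℕ) : ∫⁻ z : ℝ × ℝ, chi ((0 < z.1 ∧ z.2 < 1) ∧ z.1 < z.2) *
    ENNReal.ofReal ((1 - (1 - z.2) / (1 - z.1)) ^ N) = ENNReal.ofReal (1 / (2 * (N + 1))) := by
  rw [← int_low N, ← lintegral_reflect]
  refine lintegral_congr fun z => ?_
  simp only [sub_sub_cancel]
  congr 2
  refine propext ⟨fun h => ?_, fun h => ?_⟩
  · obtain ⟨⟨h1, h2⟩, h3⟩ := h
    exact ⟨⟨⟨by linarith, by linarith⟩, by linarith⟩, by linarith⟩
  · obtain ⟨⟨⟨h1, h2⟩, h3⟩, h4⟩ := h
    exact ⟨⟨by linarith, by linarith⟩, by linarith⟩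

/-- **The truncated power of a polynomial in the slopes.** -/
theorem isT'_pow [Fintype ι] (F : MvPolynomial ι ℤ) :
    ∃ N : ℕ, IsT' fun p : ι → ℝ × ℝ => chi (p ∈ reg (domS ι)) * pw N 1 (MvPolynomial.aeval (xs p) F) := by
  obtain ⟨w, h1, h2⟩ := exists_word F
  let S : List (Tri ((ι ⊕ Unit) ⊕ Unit)) := (domS ι).map (mT fun i => Sum.inl (Sum.inl i)) ++
    ((lowS (ι := ι)).map (mT Sum.inl) ++ uppS (ι := ι ⊕ Unit))
  have hS : ∀ p : (ι ⊕ Unit) ⊕ Unit → ℝ × ℝ, p ∈ reg S ↔ (fun i => p (Sum.inl (Sum.inl i))) ∈ reg (domS ι) ∧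
      (fun i => p (Sum.inl i)) ∈ reg (lowS (ι := ι)) ∧ p ∈ reg (uppS (ι := ι ⊕ Unit)) := by
    intro p
    rw [mem_reg_append, mem_reg_append, mem_reg_map, mem_reg_map]
  have hok : ∀ p ∈ reg S, ∀ L, alw L → ok p L := by
    intro p hp L hL
    obtain ⟨h3, h4, h5⟩ := (hS p).1 hp
    rw [mem_domS] at h3
    rw [mem_lowS] at h4
    rw [mem_uppS] at h5
    cases L with
    | diag => trivial
    | sl j =>
      rcases j with (i | i) | i
      · exact ⟨(h3 i).1.1, (h3 i).2⟩
      · exact ⟨h4.1.1.1, h4.1.2⟩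
      · exact hL.elim
    | up j =>
      rcases j with j | j
      · exact hL.elim
      · exact ⟨h5.2.trans h5.1.2, h5.1.2⟩
  have hokw : ∀ p ∈ reg S, okw p w := fun p hp l hl => ⟨hok p hp _ (h1 l hl).1, hok p hp _ (h1 l hl).2⟩
  refine ⟨4 * w.length, ?_⟩
  let N : ℕ := 4 * w.length
  -- the volume of the region of the word
  have h3 : IsT fun p : (ι ⊕ Unit) ⊕ Unit → ℝ × ℝ => V w p 0 :=
    (isT_V w (fun i => i) oo fun p => by simp [cz]).congr fun p => by simp [cx]
  have h4 := (good_word hokw).2.2.1.mul h3.to'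
  have h5 : ∀ p, chi (p ∈ reg S) * ENNReal.ofReal (cK p w) * V w p 0 =
      chi (p ∈ reg S) * (pw N 1 (MvPolynomial.aeval (xs fun i => p (Sum.inl (Sum.inl i))) F) *
        (ENNReal.ofReal ((1 - (p (Sum.inl (Sum.inr ()))).2 / (p (Sum.inl (Sum.inr ()))).1) ^ N) *
          ENNReal.ofReal ((1 - (1 - (p (Sum.inr ())).2) / (1 - (p (Sum.inr ())).1)) ^ N))) := by
    intro p
    by_cases hp : p ∈ reg S
    · obtain ⟨hA, hK, hV⟩ := V_eq p w (hokw p hp)
      obtain ⟨h6, h7⟩ := h2 p fun L hL => al_pos (hok p hp L hL)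
      obtain ⟨-, h8, h9⟩ := (hS p).1 hp
      rw [mem_lowS] at h8
      rw [mem_uppS] at h9
      have h10 : 0 < 1 - (p (Sum.inl (Sum.inr ()))).2 / (p (Sum.inl (Sum.inr ()))).1 := by
        rw [sub_pos, div_lt_one h8.1.1.1]
        exact h8.2
      have h11 : 0 < 1 - (1 - (p (Sum.inr ())).2) / (1 - (p (Sum.inr ())).1) := by
        rw [sub_pos, div_lt_one (by linarith [h9.2.trans h9.1.2])]
        linarith [h9.2]
      have h12 : WW p = (1 - (p (Sum.inl (Sum.inr ()))).2 / (p (Sum.inl (Sum.inr ()))).1) *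
          (1 - (1 - (p (Sum.inr ())).2) / (1 - (p (Sum.inr ())).1)) := rfl
      rw [chi_pos hp, one_mul, one_mul, hV, h6, h7, mul_zero, zero_add, ← ENNReal.ofReal_mul (by positivity), ← mul_pow,
        ← h12, ← pw_mul (by rw [h12]; positivity)]
      by_cases hF : 0 < MvPolynomial.aeval (xs fun i => p (Sum.inl (Sum.inl i))) F * WW p
      · rw [pw_pos hF, pw_pos hF, ← ENNReal.ofReal_mul hK.le]
        congr 1
        have h13 := hK.ne'
        have hN : N = 4 * w.length := rfl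
        rw [hN]
        field_simp
      · rw [pw_neg hF, pw_neg hF, mul_zero]
    · rw [chi_neg hp, zero_mul, zero_mul, zero_mul]
  have h6 := (h4.congr fun p => (h5 p).symm).int1.int1.nat_mul (n := (2 * (N + 1)) * (2 * (N + 1))) (by positivity)
  refine h6.congr fun p => ?_
  have h7 : ∀ z z' : ℝ × ℝ, chi ((Sum.elim (Sum.elim p fun _ : Unit => z) fun _ : Unit => z') ∈ reg S) =
      chi (p ∈ reg (domS ι)) * (chi (((0 < z.1 ∧ z.1 < 1) ∧ 0 < z.2) ∧ z.2 < z.1) *
        chi ((0 < z'.1 ∧ z'.2 < 1) ∧ z'.1 < z'.2)) := by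
    intro z z'
    rw [← chi_and, ← chi_and]
    congr 1
    refine propext ?_
    rw [hS, mem_lowS, mem_uppS]
    rfl
  simp only [h7, Sum.elim_inl, Sum.elim_inr]
  let c : ENNReal := ENNReal.ofReal (1 / (2 * ((N : ℕ) + 1)))
  let P : ENNReal := pw N 1 (MvPolynomial.aeval (xs p) F)
  have hm : Measurable fun z' : ℝ × ℝ => chi ((0 < z'.1 ∧ z'.2 < 1) ∧ z'.1 < z'.2) *
      ENNReal.ofReal ((1 - (1 - z'.2) / (1 - z'.1)) ^ N) := by
    refine (measurable_chi ?_).mul (by fun_prop)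
    exact ((measurableSet_lt measurable_const measurable_fst).inter (measurableSet_lt measurable_snd measurable_const)).inter
      (measurableSet_lt measurable_fst measurable_snd)
  have hm' : Measurable fun z : ℝ × ℝ => chi (((0 < z.1 ∧ z.1 < 1) ∧ 0 < z.2) ∧ z.2 < z.1) *
      ENNReal.ofReal ((1 - z.2 / z.1) ^ N) := by
    refine (measurable_chi ?_).mul (by fun_prop)
    exact (((measurableSet_lt measurable_const measurable_fst).inter (measurableSet_lt measurable_fst measurable_const)).inter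
      (measurableSet_lt measurable_const measurable_snd)).inter (measurableSet_lt measurable_snd measurable_fst)
  have h8 : ∀ z : ℝ × ℝ, (∫⁻ z' : ℝ × ℝ, chi (p ∈ reg (domS ι)) * (chi (((0 < z.1 ∧ z.1 < 1) ∧ 0 < z.2) ∧ z.2 < z.1) *
        chi ((0 < z'.1 ∧ z'.2 < 1) ∧ z'.1 < z'.2)) * (P * (ENNReal.ofReal ((1 - z.2 / z.1) ^ N) *
          ENNReal.ofReal ((1 - (1 - z'.2) / (1 - z'.1)) ^ N)))) =
      (chi (p ∈ reg (domS ι)) * P * c) * (chi (((0 < z.1 ∧ z.1 < 1) ∧ 0 < z.2) ∧ z.2 < z.1) *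
        ENNReal.ofReal ((1 - z.2 / z.1) ^ N)) := by
    intro z
    have h9 : ∀ z' : ℝ × ℝ, chi (p ∈ reg (domS ι)) * (chi (((0 < z.1 ∧ z.1 < 1) ∧ 0 < z.2) ∧ z.2 < z.1) *
        chi ((0 < z'.1 ∧ z'.2 < 1) ∧ z'.1 < z'.2)) * (P * (ENNReal.ofReal ((1 - z.2 / z.1) ^ N) *
          ENNReal.ofReal ((1 - (1 - z'.2) / (1 - z'.1)) ^ N))) =
        (chi (p ∈ reg (domS ι)) * P * (chi (((0 < z.1 ∧ z.1 < 1) ∧ 0 < z.2) ∧ z.2 < z.1) *
        ENNReal.ofReal ((1 - z.2 / z.1) ^ N))) * (chi ((0 < z'.1 ∧ z'.2 < 1) ∧ z'.1 < z'.2) *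
      ENNReal.ofReal ((1 - (1 - z'.2) / (1 - z'.1)) ^ N)) := fun z' => by ring
    simp only [h9]
    rw [lintegral_const_mul _ hm, int_upp]
    ring
  simp only [h8, P]
  rw [lintegral_const_mul _ hm', int_low]
  have h9 : (((2 * (N + 1) * (2 * (N + 1)) : ℕ) : ENNReal)) * (c * c) = 1 := by
    rw [← ENNReal.ofReal_natCast, ← ENNReal.ofReal_mul (by positivity), ← ENNReal.ofReal_mul (by positivity), ← ENNReal.ofReal_one]
    congr 1
    push_cast
    field_simp
  have h10 : ∀ a b d : ENNReal, d * (c * c) = 1 → a * b = d * (a * b * c * c) := by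
    intro a b d hd
    calc a * b = (a * b) * (d * (c * c)) := by rw [hd, mul_one]
      _ = d * (a * b * c * c) := by ring
  exact h10 _ _ _ h9

/-- **The reciprocal of a polynomial in the slopes.** -/
theorem isT'_inv [Fintype ι] (F : MvPolynomial ι ℤ) :
    ∃ ψ : (ι → ℝ × ℝ) → ENNReal, (IsT' fun p : ι → ℝ × ℝ => chi (p ∈ reg (domS ι)) * ψ p) ∧
      ∀ p, 0 < (MvPolynomial.aeval (xs p) F : ℝ) → ψ p = ENNReal.ofReal (MvPolynomial.aeval (xs p) F : ℝ)⁻¹ := by
  obtain ⟨N, hN⟩ := isT'_pow (ι := ι ⊕ Unit) (1 - MvPolynomial.X (Sum.inr ()) * MvPolynomial.rename Sum.inl F)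
  refine ⟨fun p => (2 * (N + 1).factorial : ℕ) * ∫⁻ z : ℝ × ℝ, chi ((0 < z.1 ∧ z.1 < 1) ∧ 0 < z.2) *
    pw N 1 (1 - MvPolynomial.aeval (xs p) F * (z.2 / z.1)), ?_, fun p hp => ?_⟩
  · refine (hN.int1.nat_mul (n := 2 * (N + 1).factorial) (by positivity)).congr fun p => ?_
    have h1 : ∀ z : ℝ × ℝ, chi ((Sum.elim p fun _ : Unit => z) ∈ reg (domS (ι ⊕ Unit))) =
        chi (p ∈ reg (domS ι)) * chi ((0 < z.1 ∧ z.1 < 1) ∧ 0 < z.2) := by
      intro z
      rw [← chi_and]
      congr 1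
      refine propext ?_
      rw [mem_domS, mem_domS, Sum.forall]
      exact and_congr_right fun _ => ⟨fun h => h (), fun h _ => h⟩
    have h2 : ∀ z : ℝ × ℝ, (MvPolynomial.aeval (xs (Sum.elim p fun _ : Unit => z))
        (1 - MvPolynomial.X (Sum.inr ()) * MvPolynomial.rename Sum.inl F) : ℝ) =
          1 - MvPolynomial.aeval (xs p) F * (z.2 / z.1) := by
      intro z
      rw [map_sub, map_one, map_mul, MvPolynomial.aeval_X, MvPolynomial.aeval_rename, mul_comm]
      rfl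
    simp only [h1, h2, mul_assoc]
    rw [lintegral_const_mul]
    · ring
    · refine (measurable_chi ?_).mul ((measurable_pw N 1).comp (by fun_prop))
      exact ((measurableSet_lt measurable_const measurable_fst).inter (measurableSet_lt measurable_fst measurable_const)).inter
        (measurableSet_lt measurable_const measurable_snd)
  · have hg : Measurable fun s : ℝ => pw N 1 (1 - MvPolynomial.aeval (xs p) F * s) :=
      (measurable_pw N 1).comp (by fun_prop)
    beta_reduce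
    rw [int_slope hg, int_pw' hp one_pos, pw_pos (by norm_num), ← ENNReal.ofReal_natCast,
      ← ENNReal.ofReal_mul (by positivity), ← ENNReal.ofReal_mul (by positivity)]
    congr 1
    have h1 := hp.ne'
    push_cast
    rw [mul_zero, sub_zero, one_pow, one_mul]
    field_simp

/-- **The indicator function of a polynomial inequality between the slopes.** -/
theorem isT'_ind [Fintype ι] (F : MvPolynomial ι ℤ) :
    IsT' fun p : ι → ℝ × ℝ => chi (p ∈ reg (domS ι)) * chi (0 < (MvPolynomial.aeval (xs p) F : ℝ)) := by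
  obtain ⟨N, h1⟩ := isT'_pow F
  obtain ⟨ψ, h2, h3⟩ := isT'_inv F
  refine ((h1.mul (h2.pow N)).nat_mul (n := N.factorial) (Nat.factorial_pos N)).congr fun p => ?_
  by_cases hp : p ∈ reg (domS ι)
  · by_cases hF : 0 < (MvPolynomial.aeval (xs p) F : ℝ)
    · rw [chi_pos hp, chi_pos hF, h3 p hF, pw_pos hF, one_mul, one_mul, one_mul, ← ENNReal.ofReal_pow (inv_pos.2 hF).le,
        ← ENNReal.ofReal_mul (by positivity), ← ENNReal.ofReal_natCast, ← ENNReal.ofReal_mul (by positivity), ← ENNReal.ofReal_one]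
      congr 1
      have h4 := hF.ne'
      rw [inv_pow]
      field_simp
    · rw [chi_neg hF, pw_neg hF]
      simp
  · rw [chi_neg hp]
    simp

/-- Integral multiples of rational polynomials. -/
lemma exists_int (F : MvPolynomial ι ℚ) : ∃ (d : ℕ) (G : MvPolynomial ι ℤ), 0 < d ∧
    ∀ x : ι → ℝ, (MvPolynomial.aeval x G : ℝ) = d * MvPolynomial.aeval x F := by
  induction F using MvPolynomial.induction_on with
  | C a =>
    refine ⟨a.den, MvPolynomial.C a.num, a.den_pos, fun x => ?_⟩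
    rw [MvPolynomial.aeval_C, MvPolynomial.aeval_C]
    simp only [eq_intCast, eq_ratCast]
    have h1 : (a.den : ℚ) * a = a.num := by rw [mul_comm]; exact Rat.mul_den_eq_num a
    have h2 := congrArg (fun q : ℚ => (q : ℝ)) h1
    push_cast at h2
    exact h2.symm
  | add f g hf hg =>
    obtain ⟨d, F, h1, h2⟩ := hf
    obtain ⟨d', G, h3, h4⟩ := hg
    refine ⟨d * d', (d' : MvPolynomial ι ℤ) * F + (d : MvPolynomial ι ℤ) * G, Nat.mul_pos h1 h3, fun x => ?_⟩
    rw [map_add, map_mul, map_mul, h2, h4, map_natCast, map_natCast, map_add]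
    push_cast
    ring
  | mul_X f i hf =>
    obtain ⟨d, F, h1, h2⟩ := hf
    refine ⟨d, F * MvPolynomial.X i, h1, fun x => ?_⟩
    rw [map_mul, map_mul, h2, MvPolynomial.aeval_X, MvPolynomial.aeval_X]
    ring

/-- **The indicator function of a region given by polynomial inequalities between the slopes.** -/
theorem isT'_list [Fintype ι] (ps : List (MvPolynomial ι ℚ)) :
    IsT' fun p : ι → ℝ × ℝ => chi (p ∈ reg (domS ι)) * chi (xs p ∈ pos ps) := by
  induction ps with
  | nil =>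
    refine (IsT.ind (domS ι)).to'.congr fun p => ?_
    by_cases hp : p ∈ reg (domS ι)
    · have h1 : xs p ∈ pos ([] : List (MvPolynomial ι ℚ)) := by
        refine ⟨fun i => ?_, by simp⟩
        have h2 := mem_domS.1 hp i
        exact div_pos h2.2 h2.1.1
      rw [chi_pos h1, mul_one]
    · rw [chi_neg hp, zero_mul]
  | cons q ps ih =>
    obtain ⟨d, G, hd, hG⟩ := exists_int q
    refine (ih.mul (isT'_ind G)).congr fun p => ?_
    have h1 : (0 < (MvPolynomial.aeval (xs p) G : ℝ)) = (0 < (MvPolynomial.aeval (xs p) q : ℝ)) := by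
      rw [hG]
      exact propext (mul_pos_iff_of_pos_left (by exact_mod_cast hd))
    have h2 : chi (xs p ∈ pos (q :: ps)) = chi (xs p ∈ pos ps) * chi (0 < (MvPolynomial.aeval (xs p) q : ℝ)) := by
      rw [← chi_and]
      congr 1
      simp only [pos, Set.mem_ofPred_eq, List.forall_mem_cons]
      refine propext ?_
      tauto
    rw [h1, h2]
    by_cases hp : p ∈ reg (domS ι)
    · rw [chi_pos hp]
      ring
    · rw [chi_neg hp]
      ring

end Pool.Agent.Helper8.OT
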