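import Pool.Agent.Helper8.OT.Ind

/-!
# Volumes of semialgebraic sets and volumes of sets of configurations
-/

set_option autoImplicit false

namespace Pool.Agent.Helper8.OT

open MeasureTheory Q54.KZ

variable {ι κ : Type}

/-- the strip -/
def strip : Set (ℝ × ℝ) := {z | (0 < z.1 ∧ z.1 < 1) ∧ 0 < z.2}

lemma measurableSet_strip : MeasurableSet strip :=
  ((measurableSet_lt measurable_const measurable_fst).inter (measurableSet_lt measurable_fst measurable_const)).inter
    (measurableSet_lt measurable_const measurable_snd)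

lemma sigmaFinite_half : SigmaFinite (ENNReal.ofReal (1 / 2) • (volume.restrict (Set.Ioi (0 : ℝ)))) := by
  have h1 : ENNReal.ofReal (1 / 2) • (volume.restrict (Set.Ioi (0 : ℝ))) =
      (Real.toNNReal (1 / 2)) • (volume.restrict (Set.Ioi (0 : ℝ))) := rfl
  rw [h1]
  infer_instance

/-- the distribution of the slope -/
lemma map_slope : (volume.restrict strip).map (fun z : ℝ × ℝ => z.2 / z.1) =
    ENNReal.ofReal (1 / 2) • (volume.restrict (Set.Ioi (0 : ℝ))) := by
  have hm : Measurable fun z : ℝ × ℝ => z.2 / z.1 := measurable_snd.div measurable_fst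
  ext s hs
  rw [Measure.map_apply hm hs, Measure.restrict_apply (hs.preimage hm), Measure.smul_apply, Measure.restrict_apply hs]
  have h1 := int_slope (g := fun t => chi (t ∈ s)) (measurable_chi hs)
  have h2 : ∀ z : ℝ × ℝ, chi ((0 < z.1 ∧ z.1 < 1) ∧ 0 < z.2) * chi (z.2 / z.1 ∈ s) =
      chi (z ∈ (fun z : ℝ × ℝ => z.2 / z.1) ⁻¹' s ∩ strip) := by
    intro z
    rw [← chi_and]
    congr 1
    exact propext and_comm
  have h3 : ∀ t : ℝ, chi (0 < t) * chi (t ∈ s) = chi (t ∈ s ∩ Set.Ioi 0) := by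
    intro t
    rw [← chi_and]
    congr 1
    exact propext and_comm
  simp only [h2, h3] at h1
  have h4 := lintegral_chi (P := fun z => z ∈ (fun z : ℝ × ℝ => z.2 / z.1) ⁻¹' s ∩ strip)
    ((hs.preimage hm).inter measurableSet_strip)
  have h5 := lintegral_chi (P := fun t => t ∈ s ∩ Set.Ioi 0) (hs.inter measurableSet_Ioi)
  rw [h4, h5] at h1
  exact h1

/-- **The distribution of the slopes of several points.** -/
theorem volume_slopes [Fintype ι] {A : Set (ι → ℝ)} (hA : MeasurableSet A) :
    volume {p : ι → ℝ × ℝ | (∀ i, p i ∈ strip) ∧ xs p ∈ A} =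
      ENNReal.ofReal (1 / 2) ^ Fintype.card ι * volume (A ∩ {x | ∀ i, 0 < x i}) := by
  have hm : Measurable (xs : (ι → ℝ × ℝ) → ι → ℝ) := measurable_pi_iff.2 fun i => measurable_xs i
  have h1 : (volume : Measure (ι → ℝ × ℝ)).restrict (Set.univ.pi fun _ => strip) =
      Measure.pi fun _ : ι => (volume : Measure (ℝ × ℝ)).restrict strip := Measure.restrict_pi_pi _ _
  have h2 : (Measure.pi fun _ : ι => (volume : Measure (ℝ × ℝ)).restrict strip).map xs =
      Measure.pi fun _ : ι => ENNReal.ofReal (1 / 2) • (volume.restrict (Set.Ioi (0 : ℝ))) := by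
    have hf : ∀ _ : ι, AEMeasurable (fun z : ℝ × ℝ => z.2 / z.1) ((volume : Measure (ℝ × ℝ)).restrict strip) :=
      fun _ => (measurable_snd.div measurable_fst).aemeasurable
    have hs : ∀ _ : ι, SigmaFinite (((volume : Measure (ℝ × ℝ)).restrict strip).map fun z : ℝ × ℝ => z.2 / z.1) := by
      intro _
      rw [map_slope]
      exact sigmaFinite_half
    have h3 := Measure.pi_map_pi (hμ := hs) hf
    rw [map_slope] at h3
    exact h3
  have h3 : (Measure.pi fun _ : ι => ENNReal.ofReal (1 / 2) • (volume.restrict (Set.Ioi (0 : ℝ)))) =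
      ENNReal.ofReal (1 / 2) ^ Fintype.card ι • (volume : Measure (ι → ℝ)).restrict (Set.univ.pi fun _ => Set.Ioi 0) := by
    have h4 : (volume : Measure (ι → ℝ)).restrict (Set.univ.pi fun _ => Set.Ioi 0) =
      Measure.pi fun _ : ι => (volume : Measure ℝ).restrict (Set.Ioi 0) := Measure.restrict_pi_pi _ _
    rw [h4]
    have hs1 : ∀ _ : ι, SigmaFinite (ENNReal.ofReal (1 / 2) • (volume.restrict (Set.Ioi (0 : ℝ)))) := fun _ => sigmaFinite_half
    refine @Measure.pi_eq ι (fun _ => ℝ) _ _ _ hs1 _ fun s hs => ?_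
    rw [Measure.smul_apply, Measure.pi_pi]
    simp only [Measure.smul_apply, smul_eq_mul]
    rw [Finset.prod_mul_distrib, Finset.prod_const, Finset.card_univ]
  have h4 : {p : ι → ℝ × ℝ | (∀ i, p i ∈ strip) ∧ xs p ∈ A} = xs ⁻¹' A ∩ Set.univ.pi fun _ => strip := by
    ext p
    simp [and_comm]
  have h5 : {x : ι → ℝ | ∀ i, 0 < x i} = Set.univ.pi fun _ => Set.Ioi 0 := by
    ext x
    simp
  rw [h4, h5, ← Measure.restrict_apply (hA.preimage hm), h1, ← Measure.map_apply hm hA, h2, h3, Measure.smul_apply,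
    Measure.restrict_apply hA, smul_eq_mul]

/-- **Every volume of a semialgebraic set in the positive orthant is a multiple of the volume of a set of configurations.** -/
theorem volume_pos [Fintype ι] (ps : List (MvPolynomial ι ℚ)) : ∃ (C : ℕ) (n : ℕ) (S : List (Tri (Fin n))), 0 < C ∧
    volume (pos ps) = C * volume (reg S) := by
  obtain ⟨C, hC, φ₀, ⟨κ, _, S, h1⟩, h2⟩ := isT'_list ps
  have h3 : volume {p : ι → ℝ × ℝ | (∀ i, p i ∈ strip) ∧ xs p ∈ pos ps} = C * volume (reg S) := by
    have hm : MeasurableSet {p : ι → ℝ × ℝ | (∀ i, p i ∈ strip) ∧ xs p ∈ pos ps} := by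
      have h4 : MeasurableSet {p : ι → ℝ × ℝ | ∀ i, p i ∈ strip} := by
        have h4 : {p : ι → ℝ × ℝ | ∀ i, p i ∈ strip} = Set.univ.pi fun _ => strip := by
          ext p
          simp
        rw [h4]
        exact MeasurableSet.univ_pi fun _ => measurableSet_strip
      exact h4.inter ((measurableSet_pos' ps).preimage (measurable_pi_iff.2 fun i => measurable_xs i))
    rw [← lintegral_chi hm]
    have h4 : ∀ p : ι → ℝ × ℝ, chi (p ∈ {p : ι → ℝ × ℝ | (∀ i, p i ∈ strip) ∧ xs p ∈ pos ps}) = C * φ₀ p := by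
      intro p
      rw [← h2]
      beta_reduce
      rw [← chi_and]
      congr 1
      refine propext (and_congr_left fun _ => ?_)
      rw [mem_domS]
      rfl
    have h5 : IsT φ₀ := ⟨κ, inferInstance, S, h1⟩
    have h6 : (∫⁻ p : ι → ℝ × ℝ, chi ((∀ i, p i ∈ strip) ∧ xs p ∈ pos ps)) = ∫⁻ p, C * φ₀ p :=
      lintegral_congr fun p => h4 p
    refine h6.trans ?_
    rw [lintegral_const_mul _ h5.measurable, volume_sum' (measurableSet_reg S)]
    congr 1
    exact lintegral_congr fun p => h1 p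
  have h4 : pos ps ∩ {x | ∀ i, 0 < x i} = pos ps := Set.inter_eq_left.2 fun x hx => hx.1
  rw [volume_slopes (measurableSet_pos' ps), h4] at h3
  let e := Fintype.equivFin (ι ⊕ κ)
  refine ⟨2 ^ Fintype.card ι * C, _, S.map (mT e), by positivity, ?_⟩
  have h5 : volume (reg (S.map (mT e))) = volume (reg S) := by
    have h6 := (volume_preserving_arrowCongr' e (MeasurableEquiv.refl (ℝ × ℝ)) (MeasurePreserving.id volume)).symm
    rw [← h6.measure_preimage_equiv]
    congr 1
    ext p
    rw [mem_reg_map, Set.mem_preimage]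
    rfl
  rw [h5]
  push_cast
  rw [mul_assoc, ← h3, ← mul_assoc, ← mul_pow]
  have h6 : (2 : ENNReal) * ENNReal.ofReal (1 / 2) = 1 := by
    rw [show (2 : ENNReal) = ENNReal.ofReal 2 by simp, ← ENNReal.ofReal_mul (by norm_num)]
    norm_num
  rw [h6, one_pow, one_mul]

end Pool.Agent.Helper8.OT
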