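import Pool.Agent.Helper8.OT.Unif

/-!
# Periods as multiples of the difference of two volumes
-/

set_option autoImplicit false

namespace Pool.Agent.Helper8.OT

open MeasureTheory Q54.KZ

variable {ι κ : Type}

lemma IsT.pow {φ : (ι → ℝ × ℝ) → ENNReal} (hφ : IsT φ) (n : ℕ) : IsT fun p => φ p ^ n := by
  induction n with
  | zero => simpa using IsT.one (ι := ι)
  | succ n ih => simpa only [pow_succ] using ih.mul hφ

/-- the area of a rectangle -/
lemma isT_area : ∃ φ : (Unit → ℝ × ℝ) → ENNReal, IsT φ ∧ ∀ p, φ p = ENNReal.ofReal (p ()).1 := by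
  let r : Unit ⊕ Unit := Sum.inr ()
  let q : Unit ⊕ Unit := Sum.inl ()
  refine ⟨_, (IsT.ind [(oo, Sum.inl r, e2), (Sum.inl r, Sum.inl q, e2), (Sum.inl r, oo, e1), (uu, Sum.inl r, e1)]).int1,
    fun p => ?_⟩
  have h1 : ∀ z : ℝ × ℝ, chi ((Sum.elim p fun _ : Unit => z) ∈
      reg [(oo, Sum.inl r, e2), (Sum.inl r, Sum.inl q, e2), (Sum.inl r, oo, e1), (uu, Sum.inl r, e1)]) =
      chi (z ∈ Set.Ioo 0 (p ()).1 ×ˢ Set.Ioo (0 : ℝ) 1) := by
    intro z
    congr 1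
    simp only [reg, Set.mem_ofPred_eq, List.forall_mem_cons, Pos, D_e1, D_e2]
    simp [r, q]
    tauto
  simp only [h1]
  rw [lintegral_chi (P := fun z : ℝ × ℝ => z ∈ Set.Ioo 0 (p ()).1 ×ˢ Set.Ioo (0 : ℝ) 1)
    (measurableSet_Ioo.prod measurableSet_Ioo)]
  have h2 : {z : ℝ × ℝ | z ∈ Set.Ioo 0 (p ()).1 ×ˢ Set.Ioo (0 : ℝ) 1} = Set.Ioo 0 (p ()).1 ×ˢ Set.Ioo (0 : ℝ) 1 := rfl
  rw [h2, Measure.volume_eq_prod, Measure.prod_prod, Real.volume_Ioo, Real.volume_Ioo]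
  simp

/-- the reciprocals of the positive integers -/
lemma isT_inv_nat (N : ℕ) : ∃ φ : (Empty → ℝ × ℝ) → ENNReal, IsT φ ∧ ∀ p, φ p = ENNReal.ofReal (1 / (N + 1)) := by
  obtain ⟨a, h1, h2⟩ := isT_area
  let r : Unit := ()
  have h3 := ((h1.pow N).ind_mul [(oo, Sum.inl r, e2), (Sum.inl r, uu, e2), (Sum.inl r, oo, e1), (uu, Sum.inl r, e1)]).comp
    (fun _ : Unit => (Sum.inr () : Empty ⊕ Unit))
  refine ⟨_, h3.int1, fun p => ?_⟩
  simp only [Sum.elim_inr, h2]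
  have h4 : ∀ z : ℝ × ℝ, chi ((fun _ : Unit => z) ∈
      reg [(oo, Sum.inl r, e2), (Sum.inl r, uu, e2), (Sum.inl r, oo, e1), (uu, Sum.inl r, e1)]) * ENNReal.ofReal z.1 ^ N =
      ((N.factorial : ℕ) : ENNReal) * ((chi (z.1 < 1) * pw N 1 (1 * z.1 + 0)) * chi (z.2 ∈ Set.Ioo (0 : ℝ) 1)) := by
    intro z
    have h5 : ((fun _ : Unit => z) ∈
      reg [(oo, Sum.inl r, e2), (Sum.inl r, uu, e2), (Sum.inl r, oo, e1), (uu, Sum.inl r, e1)]) =
        ((0 < z.1 ∧ z.1 < 1) ∧ z.2 ∈ Set.Ioo (0 : ℝ) 1) := by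
      simp only [reg, Set.mem_ofPred_eq, List.forall_mem_cons, Pos, D_e1, D_e2]
      simp
      tauto
    rw [h5]
    by_cases h6 : 0 < z.1
    · by_cases h7 : z.1 < 1
      · by_cases h8 : z.2 ∈ Set.Ioo (0 : ℝ) 1
        · rw [chi_pos ⟨⟨h6, h7⟩, h8⟩, chi_pos h7, chi_pos h8, one_mul, one_mul, mul_one, pw_pos (by linarith),
            ← ENNReal.ofReal_pow h6.le, ← ENNReal.ofReal_natCast, ← ENNReal.ofReal_mul (by positivity)]
          congr 1
          rw [one_mul, add_zero]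
          field_simp
        · rw [chi_neg fun h => h8 h.2, chi_neg h8]
          simp
      · rw [chi_neg fun h => h7 h.1.2, chi_neg h7]
        simp
    · rw [chi_neg fun h => h6 h.1.1, pw_neg (by linarith)]
      simp
  simp only [h4]
  have hm : Measurable fun z : ℝ × ℝ => (chi (z.1 < 1) * pw N 1 (1 * z.1 + 0)) * chi (z.2 ∈ Set.Ioo (0 : ℝ) 1) :=
    ((measurable_chi_lt measurable_fst measurable_const).mul ((measurable_pw N 1).comp (by fun_prop))).mul
      (measurable_chi (measurableSet_Ioo.preimage measurable_snd))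
  rw [lintegral_const_mul _ hm, lintegral_pt hm]
  have h5 : ∀ a : ℝ, (∫⁻ b : ℝ, (chi (a < 1) * pw N 1 (1 * a + 0)) * chi (b ∈ Set.Ioo (0 : ℝ) 1)) =
      chi (a < 1) * pw N 1 (1 * a + 0) := by
    intro a
    have hm2 : Measurable fun b : ℝ => chi (b ∈ Set.Ioo (0 : ℝ) 1) := measurable_chi measurableSet_Ioo
    rw [lintegral_const_mul _ hm2, lintegral_chi (P := fun b : ℝ => b ∈ Set.Ioo (0 : ℝ) 1) measurableSet_Ioo]
    have h6 : {b : ℝ | b ∈ Set.Ioo (0 : ℝ) 1} = Set.Ioo 0 1 := rfl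
    rw [h6, Real.volume_Ioo]
    simp
  simp only [h5]
  rw [int_pw one_pos one_pos, pw_pos (by norm_num), ← ENNReal.ofReal_natCast, ← ENNReal.ofReal_mul (by positivity)]
  congr 1
  rw [Nat.factorial_succ]
  push_cast
  field_simp
  norm_num

lemma volume_map [Fintype ι] [Fintype κ] (e : ι ≃ κ) (S : List (Tri ι)) :
    volume (reg (S.map (mT e)) : Set (κ → ℝ × ℝ)) = volume (reg S) := by
  have h6 := (volume_preserving_arrowCongr' e (MeasurableEquiv.refl (ℝ × ℝ)) (MeasurePreserving.id volume)).symm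
  rw [← h6.measure_preimage_equiv]
  congr 1
  ext p
  rw [mem_reg_map, Set.mem_preimage]
  rfl

/-- Division of a volume by a positive integer. -/
theorem exists_div {n : ℕ} (S : List (Tri (Fin n))) (N : ℕ) : ∃ (n' : ℕ) (S' : List (Tri (Fin n'))),
    volume (reg S') = volume (reg S) * ENNReal.ofReal (1 / (N + 1)) := by
  obtain ⟨φ, h1, h2⟩ := isT_inv_nat N
  have h3 : IsT fun _ : Empty → ℝ × ℝ => volume (reg S) := by
    refine ⟨Fin n, inferInstance, S.map (mT Sum.inr), fun p => ?_⟩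
    beta_reduce
    congr 1
    ext q
    rw [Set.mem_ofPred_eq, mem_reg_map]
    rfl
  obtain ⟨κ, _, T, h4⟩ := h3.mul h1
  let f : Empty ⊕ κ ≃ κ := Equiv.emptySum Empty κ
  let e : κ ≃ Fin (Fintype.card κ) := Fintype.equivFin κ
  refine ⟨_, (T.map (mT f)).map (mT e), ?_⟩
  have h7 := h4 Empty.elim
  beta_reduce at h7
  rw [volume_map, ← h2 Empty.elim, h7]
  congr 1
  ext q
  rw [mem_reg_map, Set.mem_ofPred_eq]
  have h5 : (fun i => q (f i)) = (Sum.elim Empty.elim q : Empty ⊕ κ → ℝ × ℝ) := by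
    funext i
    rcases i with i | i
    · exact i.elim
    · rfl
  rw [h5]

/-- **Every period is an integral multiple of the difference of two volumes of sets of configurations.** -/
theorem exists_two {x : ℝ} (h : x ∈ AddSubgroup.closure vols) : ∃ (N n n' : ℕ) (S : List (Tri (Fin n)))
    (S' : List (Tri (Fin n'))), volume (reg S) ≠ ⊤ ∧ volume (reg S') ≠ ⊤ ∧
      x = N * ((volume (reg S)).toReal - (volume (reg S')).toReal) := by
  obtain ⟨a, ⟨ι, _, ps, h1, rfl⟩, b, ⟨ι', _, ps', h2, rfl⟩, rfl⟩ := exists_sub (vols_le h)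
  obtain ⟨C, n, S, hC, h3⟩ := volume_pos ps
  obtain ⟨C', n', S', hC', h4⟩ := volume_pos ps'
  obtain ⟨m, T, h5⟩ := exists_div S (C' - 1)
  obtain ⟨m', T', h6⟩ := exists_div S' (C - 1)
  have e1 : (((C - 1 : ℕ) : ℝ) + 1) = C := by
    rw [Nat.cast_sub hC, Nat.cast_one, sub_add_cancel]
  have e2 : (((C' - 1 : ℕ) : ℝ) + 1) = C' := by
    rw [Nat.cast_sub hC', Nat.cast_one, sub_add_cancel]
  rw [e2] at h5
  rw [e1] at h6
  have f1 : volume (reg S) ≠ ⊤ := by
    intro h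
    rw [h3, h, ENNReal.mul_top (by exact_mod_cast hC.ne')] at h1
    exact h1 rfl
  have f2 : volume (reg S') ≠ ⊤ := by
    intro h
    rw [h4, h, ENNReal.mul_top (by exact_mod_cast hC'.ne')] at h2
    exact h2 rfl
  refine ⟨C * C', m, m', T, T', ?_, ?_, ?_⟩
  · rw [h5]
    exact ENNReal.mul_ne_top f1 ENNReal.ofReal_ne_top
  · rw [h6]
    exact ENNReal.mul_ne_top f2 ENNReal.ofReal_ne_top
  · rw [h3, h4, h5, h6]
    simp only [ENNReal.toReal_mul, ENNReal.toReal_natCast]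
    rw [ENNReal.toReal_ofReal (by positivity), ENNReal.toReal_ofReal (by positivity)]
    have h7 : (C : ℝ) ≠ 0 := by exact_mod_cast hC.ne'
    have h8 : (C' : ℝ) ≠ 0 := by exact_mod_cast hC'.ne'
    push_cast
    field_simp

end Pool.Agent.Helper8.OT
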