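import Pool.Agent.Helper8.OT.Total

/-!
# Decomposition into realization spaces of uniform oriented matroids
-/

set_option autoImplicit false

namespace Pool.Agent.Helper8.OT

open MeasureTheory Q54.KZ

variable {ι κ : Type}

/-- The coordinates of a configuration. -/
def coord (p : κ → ℝ × ℝ) : κ ⊕ κ → ℝ := Sum.elim (fun i => (p i).1) fun i => (p i).2

lemma measurePreserving_coord [Fintype κ] : MeasurePreserving (coord (κ := κ)) := by
  have h1 := (volume_measurePreserving_sumPiEquivProdPi_symm (fun _ : κ ⊕ κ => ℝ)).comp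
    (volume_measurePreserving_arrowProdEquivProdArrow ℝ ℝ κ)
  exact h1

/-- the first coordinate as a polynomial -/
noncomputable def px : E κ → MvPolynomial (κ ⊕ κ) ℚ
  | Sum.inl i => MvPolynomial.X (Sum.inl i)
  | Sum.inr k => MvPolynomial.C ((![1, 0, 0, 1] : Fin 4 → ℚ) k)

/-- the second coordinate as a polynomial -/
noncomputable def py : E κ → MvPolynomial (κ ⊕ κ) ℚ
  | Sum.inl i => MvPolynomial.X (Sum.inr i)
  | Sum.inr k => MvPolynomial.C ((![0, 1, 0, 1] : Fin 4 → ℚ) k)

/-- the third coordinate as a polynomial -/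
noncomputable def pz : E κ → MvPolynomial (κ ⊕ κ) ℚ
  | Sum.inl _ => 1
  | Sum.inr k => MvPolynomial.C ((![0, 0, 1, 1] : Fin 4 → ℚ) k)

/-- the determinant as a polynomial -/
noncomputable def pD (a b c : E κ) : MvPolynomial (κ ⊕ κ) ℚ :=
  px a * (py b * pz c - pz b * py c) - py a * (px b * pz c - pz b * px c) + pz a * (px b * py c - py b * px c)

lemma aeval_px (p : κ → ℝ × ℝ) (a : E κ) : (MvPolynomial.aeval (coord p) (px a) : ℝ) = cx p a := by
  rcases a with a | a
  · simp [px, coord]
  · simp only [px, MvPolynomial.aeval_C]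
    fin_cases a <;> simp

lemma aeval_py (p : κ → ℝ × ℝ) (a : E κ) : (MvPolynomial.aeval (coord p) (py a) : ℝ) = cy p a := by
  rcases a with a | a
  · simp [py, coord]
  · simp only [py, MvPolynomial.aeval_C]
    fin_cases a <;> simp

lemma aeval_pz (p : κ → ℝ × ℝ) (a : E κ) : (MvPolynomial.aeval (coord p) (pz a) : ℝ) = cz p a := by
  rcases a with a | a
  · simp [pz]
  · simp only [pz, MvPolynomial.aeval_C]
    fin_cases a <;> simp

lemma aeval_pD (p : κ → ℝ × ℝ) (a b c : E κ) : (MvPolynomial.aeval (coord p) (pD a b c) : ℝ) = D p a b c := by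
  simp only [pD, D, map_add, map_sub, map_mul, aeval_px, aeval_py, aeval_pz]

/-- **The volumes of the sets of configurations are periods.** -/
theorem reg_mem [Fintype κ] (S : List (Tri κ)) (h : volume (reg S) ≠ ⊤) :
    (volume (reg S)).toReal ∈ AddSubgroup.closure vols := by
  have h1 : volume (reg S) = volume {x : κ ⊕ κ → ℝ | ∀ q ∈ S.map fun t => pD t.1 t.2.1 t.2.2,
      0 < (MvPolynomial.aeval x q : ℝ)} := by
    rw [← (measurePreserving_coord (κ := κ)).measure_preimage (measurableSet_poly _).nullMeasurableSet]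
    congr 1
    ext p
    simp only [reg, Set.mem_preimage, Set.mem_ofPred_eq, List.forall_mem_map, aeval_pD, Pos]
  rw [h1] at h ⊢
  exact toReal_mem _ h

/-- the configuration of points on the parabola -/
noncomputable def pb (n : ℕ) : Fin n → ℝ × ℝ := fun i => (((i : ℕ) : ℝ) + 2, (((i : ℕ) : ℝ) + 2) ^ 2)

/-- The elements of the configuration of points on the parabola. -/
lemma par' {n : ℕ} (a : E (Fin n)) :
    a = e1 ∨ a = e2 ∨ (0 ≤ cx (pb n) a ∧ cy (pb n) a = cx (pb n) a ^ 2 ∧ cz (pb n) a = 1) := by
  rcases a with i | k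
  · right; right
    simp only [cx_inl, cy_inl, cz_inl, and_true, pb]
    positivity
  · fin_cases k
    · left; rfl
    · right; left; rfl
    · right; right
      simp
    · right; right
      simp

lemma par_inj {n : ℕ} {a b : E (Fin n)} (hab : a ≠ b) (ha : cz (pb n) a = 1) (hb : cz (pb n) b = 1) :
    cx (pb n) a ≠ cx (pb n) b := by
  intro h
  rcases a with i | k <;> rcases b with j | l
  · simp only [cx_inl, pb] at h
    have h1 : (i : ℝ) = j := by linarith
    exact hab (congrArg Sum.inl (Fin.ext (by exact_mod_cast h1)))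
  · have h1 : (0 : ℝ) ≤ i := by positivity
    fin_cases l <;> simp [pb] at h hb <;> linarith
  · have h1 : (0 : ℝ) ≤ j := by positivity
    fin_cases k <;> simp [pb] at h ha <;> linarith
  · fin_cases k <;> fin_cases l <;> simp at h ha hb hab

/-- Three different elements of this configuration are independent. -/
lemma par_ne {n : ℕ} {a b c : E (Fin n)} (hab : a ≠ b) (hbc : b ≠ c) (hac : a ≠ c) : D (pb n) a b c ≠ 0 := by
  rcases par' a with rfl | rfl | ⟨ha, ha1, ha2⟩ <;> rcases par' b with rfl | rfl | ⟨hb, hb1, hb2⟩ <;>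
    rcases par' c with rfl | rfl | ⟨hc, hc1, hc2⟩
  all_goals try exact absurd rfl hab
  all_goals try exact absurd rfl hbc
  all_goals try exact absurd rfl hac
  · simp [D, hc2]
  · simp [D, hb2]
  · have h := par_inj hbc hb2 hc2
    simp only [D, cx_e1, cy_e1, cz_e1, hb1, hc1, hb2, hc2]
    intro h1
    have h2 : (cx (pb n) b - cx (pb n) c) * (cx (pb n) b + cx (pb n) c) = 0 := by linarith
    rcases mul_eq_zero.1 h2 with h3 | h3
    · exact h (sub_eq_zero.1 h3)
    · exact h (by linarith)
  · simp [D, hc2]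
  · simp [D, hb2]
  · have h := par_inj hbc hb2 hc2
    simp only [D, cx_e2, cy_e2, cz_e2, hb2, hc2]
    intro h1
    exact h (by linarith)
  · simp [D, ha2]
  · have h := par_inj hac ha2 hc2
    simp only [D, cx_e1, cy_e1, cz_e1, ha1, hc1, ha2, hc2]
    intro h1
    have h2 : (cx (pb n) a - cx (pb n) c) * (cx (pb n) a + cx (pb n) c) = 0 := by linarith
    rcases mul_eq_zero.1 h2 with h3 | h3
    · exact h (sub_eq_zero.1 h3)
    · exact h (by linarith)
  · simp [D, ha2]
  · have h := par_inj hac ha2 hc2
    simp only [D, cx_e2, cy_e2, cz_e2, ha2, hc2]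
    intro h1
    exact h (by linarith)
  · have h := par_inj hab ha2 hb2
    simp only [D, cx_e1, cy_e1, cz_e1, ha1, hb1, ha2, hb2]
    intro h1
    have h2 : (cx (pb n) a - cx (pb n) b) * (cx (pb n) a + cx (pb n) b) = 0 := by linarith
    rcases mul_eq_zero.1 h2 with h3 | h3
    · exact h (sub_eq_zero.1 h3)
    · exact h (by linarith)
  · have h := par_inj hab ha2 hb2
    simp only [D, cx_e2, cy_e2, cz_e2, ha2, hb2]
    intro h1
    exact h (by linarith)
  · have h1 := par_inj hab ha2 hb2
    have h2 := par_inj hbc hb2 hc2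
    have h3 := par_inj hac ha2 hc2
    simp only [D, ha1, hb1, hc1, ha2, hb2, hc2]
    intro h4
    have h5 : (cx (pb n) a - cx (pb n) b) * ((cx (pb n) b - cx (pb n) c) * (cx (pb n) a - cx (pb n) c)) = 0 := by
      linarith
    rcases mul_eq_zero.1 h5 with h6 | h6
    · exact h1 (sub_eq_zero.1 h6)
    · rcases mul_eq_zero.1 h6 with h7 | h7
      · exact h2 (sub_eq_zero.1 h7)
      · exact h3 (sub_eq_zero.1 h7)

/-- **Three different elements are dependent in a null set of configurations only.** -/
theorem null_D {n : ℕ} {a b c : E (Fin n)} (hab : a ≠ b) (hbc : b ≠ c) (hac : a ≠ c) :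
    volume {p : Fin n → ℝ × ℝ | D p a b c = 0} = 0 := by
  have h1 : pD a b c ≠ 0 := by
    intro h
    have h2 := aeval_pD (pb n) a b c
    rw [h, map_zero] at h2
    exact par_ne hab hbc hac h2.symm
  have h2 := ae_ne_zero h1
  rw [ae_iff] at h2
  simp only [not_not] at h2
  have h3 := (measurePreserving_coord (κ := Fin n)).quasiMeasurePreserving.preimage_null h2
  refine measure_mono_null ?_ h3
  intro p hp
  rw [Set.mem_preimage, Set.mem_ofPred_eq, aeval_pD]
  exact hp

/-- The configurations with given orientations of all triples. -/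
def real {n : ℕ} (χ : E (Fin n) → E (Fin n) → E (Fin n) → SignType) : Set (Fin n → ℝ × ℝ) :=
  {p | ∀ a b c, SignType.sign (D p a b c) = χ a b c}

/-- The sign is different from zero for different elements. -/
def Uni {n : ℕ} (χ : E (Fin n) → E (Fin n) → E (Fin n) → SignType) : Prop :=
  ∀ a b c, a ≠ b → b ≠ c → a ≠ c → χ a b c ≠ 0

lemma measurableSet_sign {α : Type} [MeasurableSpace α] {f : α → ℝ} (hf : Measurable f) (s : SignType) :
    MeasurableSet {a | SignType.sign (f a) = s} := by
  rcases s with _ | _ | _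
  · have h1 : {a | SignType.sign (f a) = SignType.zero} = {a | f a = 0} := by
      ext a
      exact sign_eq_zero_iff
    rw [h1]
    exact measurableSet_eq_fun hf measurable_const
  · have h1 : {a | SignType.sign (f a) = SignType.neg} = {a | f a < 0} := by
      ext a
      exact sign_eq_neg_one_iff
    rw [h1]
    exact measurableSet_lt hf measurable_const
  · have h1 : {a | SignType.sign (f a) = SignType.pos} = {a | 0 < f a} := by
      ext a
      exact sign_eq_one_iff
    rw [h1]
    exact measurableSet_lt measurable_const hf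

lemma measurableSet_real {n : ℕ} (χ : E (Fin n) → E (Fin n) → E (Fin n) → SignType) : MeasurableSet (real χ) := by
  have h1 : real χ = ⋂ a, ⋂ b, ⋂ c, {p : Fin n → ℝ × ℝ | SignType.sign (D p a b c) = χ a b c} := by
    ext p
    simp [real]
  rw [h1]
  refine MeasurableSet.iInter fun a => MeasurableSet.iInter fun b => MeasurableSet.iInter fun c => ?_
  exact measurableSet_sign (measurable_D a b c) _

lemma D_eq_zero {p : κ → ℝ × ℝ} {a b c : E κ} (h : a = b ∨ b = c ∨ a = c) : D p a b c = 0 := by
  rcases h with rfl | rfl | rfl <;> simp only [D] <;> ring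

lemma D_swap (p : κ → ℝ × ℝ) (a b c : E κ) : D p b a c = -D p a b c := by
  simp only [D]
  ring

/-- The realization spaces of uniform sign functions are given by orientations. -/
lemma real_eq {n : ℕ} {χ : E (Fin n) → E (Fin n) → E (Fin n) → SignType} (hχ : Uni χ) :
    ∃ S : List (Tri (Fin n)), real χ = reg S := by
  classical
  let L : List (Tri (Fin n)) := (Finset.univ : Finset (Tri (Fin n))).toList
  refine ⟨(L.filter fun t => χ t.1 t.2.1 t.2.2 = 1) ++
    (L.filter fun t => χ t.1 t.2.1 t.2.2 = -1).map fun t => (t.2.1, t.1, t.2.2), ?_⟩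
  ext p
  rw [mem_reg_append]
  have hD : ∀ a b c : E (Fin n), (0 < D p b a c) = (D p a b c < 0) := by
    intro a b c
    rw [D_swap, neg_pos]
  simp only [real, reg, Set.mem_ofPred_eq, List.forall_mem_map, List.mem_filter, L, Finset.mem_toList, Finset.mem_univ,
    true_and, decide_eq_true_eq, Pos, Prod.forall]
  constructor
  · intro h
    refine ⟨fun a b c h1 => ?_, fun a b c h1 => ?_⟩
    · rw [← h a b c] at h1
      exact sign_eq_one_iff.1 h1
    · rw [← h a b c] at h1
      rw [hD]
      exact sign_eq_neg_one_iff.1 h1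
  · rintro ⟨h1, h2⟩ a b c
    rcases h3 : χ a b c with _ | _ | _
    · by_cases h4 : a = b ∨ b = c ∨ a = c
      · rw [D_eq_zero h4, sign_zero]
        rfl
      · push Not at h4
        exact absurd h3 (hχ a b c h4.1 h4.2.1 h4.2.2)
    · have h4 := h2 a b c h3
      rw [hD] at h4
      exact sign_eq_neg_one_iff.2 h4
    · exact sign_eq_one_iff.2 (h1 a b c h3)

/-- The finite volumes of the realization spaces of uniform sign functions. -/
def uvols : Set ℝ :=
  {v | ∃ (n : ℕ) (χ : E (Fin n) → E (Fin n) → E (Fin n) → SignType), Uni χ ∧ volume (real χ) ≠ ⊤ ∧ v = (volume (real χ)).toReal}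

/-- **Decomposition.** -/
theorem reg_mem_uvols {n : ℕ} (S : List (Tri (Fin n))) (h : volume (reg S) ≠ ⊤) :
    (volume (reg S)).toReal ∈ AddSubgroup.closure uvols := by
  classical
  have h1 : volume (reg S) = ∑ χ : E (Fin n) → E (Fin n) → E (Fin n) → SignType, volume (reg S ∩ real χ) := by
    rw [← measure_biUnion_finset]
    · congr 1
      ext p
      simp only [Finset.mem_univ, Set.iUnion_true, Set.mem_iUnion, Set.mem_inter_iff]
      exact ⟨fun hp => ⟨fun a b c => SignType.sign (D p a b c), hp, fun a b c => rfl⟩, fun ⟨_, hp⟩ => hp.1⟩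
    · intro χ _ χ' _ hne
      refine Set.disjoint_left.2 fun p hp hp' => hne ?_
      funext a b c
      rw [← hp.2 a b c, ← hp'.2 a b c]
    · exact fun χ _ => (measurableSet_reg S).inter (measurableSet_real χ)
  have h2 : ∀ χ : E (Fin n) → E (Fin n) → E (Fin n) → SignType, volume (reg S ∩ real χ) ≠ ⊤ := fun χ =>
    ((measure_mono Set.inter_subset_left).trans_lt (lt_top_iff_ne_top.2 h)).ne
  rw [h1, ENNReal.toReal_sum fun χ _ => h2 χ]
  refine AddSubgroup.sum_mem _ fun χ _ => ?_
  by_cases hU : Uni χ
  · by_cases hS : ∀ t ∈ S, χ t.1 t.2.1 t.2.2 = 1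
    · have h3 : reg S ∩ real χ = real χ := by
        refine Set.inter_eq_right.2 fun p hp t ht => ?_
        have h4 := hp t.1 t.2.1 t.2.2
        rw [hS t ht] at h4
        exact sign_eq_one_iff.1 h4
      have h4 := h2 χ
      rw [h3] at h4 ⊢
      exact AddSubgroup.subset_closure ⟨n, χ, hU, h4, rfl⟩
    · have h3 : reg S ∩ real χ = ∅ := by
        refine Set.eq_empty_iff_forall_notMem.2 fun p hp => hS fun t ht => ?_
        rw [← hp.2 t.1 t.2.1 t.2.2]
        exact sign_eq_one_iff.2 (hp.1 t ht)
      rw [h3, measure_empty, ENNReal.toReal_zero]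
      exact AddSubgroup.zero_mem _
  · have h3 : volume (reg S ∩ real χ) = 0 := by
      simp only [Uni] at hU
      push Not at hU
      obtain ⟨a, b, c, hab, hbc, hac, h4⟩ := hU
      refine measure_mono_null ?_ (null_D hab hbc hac)
      intro p hp
      have h5 := hp.2 a b c
      rw [h4] at h5
      exact sign_eq_zero_iff.1 h5
    rw [h3, ENNReal.toReal_zero]
    exact AddSubgroup.zero_mem _

/-- **The volumes of semialgebraic sets and of realization spaces generate the same group.** -/
theorem closure_eq : AddSubgroup.closure vols = AddSubgroup.closure uvols := by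
  refine le_antisymm (vols_le.trans ?_) ?_
  · rw [AddSubgroup.closure_le]
    rintro v ⟨ι, _, ps, h1, rfl⟩
    obtain ⟨C, n, S, hC, h2⟩ := volume_pos ps
    have h3 : volume (reg S) ≠ ⊤ := by
      intro h
      rw [h2, h, ENNReal.mul_top (by exact_mod_cast hC.ne')] at h1
      exact h1 rfl
    rw [SetLike.mem_coe, h2, ENNReal.toReal_mul, ENNReal.toReal_natCast, ← nsmul_eq_mul]
    exact AddSubgroup.nsmul_mem _ (reg_mem_uvols S h3) C
  · rw [AddSubgroup.closure_le]
    rintro v ⟨n, χ, hχ, h1, rfl⟩
    obtain ⟨S, hS⟩ := real_eq hχ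
    rw [hS] at h1 ⊢
    exact reg_mem S h1

end Pool.Agent.Helper8.OT
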