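import Pool.Agent.Helper8.OT.Gadget

/-!
# Words for the values of polynomials
-/

set_option autoImplicit false

namespace Pool.Agent.Helper8.OT

open MeasureTheory Q54.KZ

variable {ι J κ' : Type}

/-- A positive integral multiple of the volume of fibres. -/
def IsT' (φ : (ι → ℝ × ℝ) → ENNReal) : Prop := ∃ C : ℕ, 0 < C ∧ ∃ φ₀, IsT φ₀ ∧ ∀ p, φ p = C * φ₀ p

lemma IsT.to' {φ : (ι → ℝ × ℝ) → ENNReal} (h : IsT φ) : IsT' φ := ⟨1, one_pos, φ, h, fun p => by simp⟩

lemma IsT'.congr {φ ψ : (ι → ℝ × ℝ) → ENNReal} (hφ : IsT' φ) (h : ∀ p, ψ p = φ p) : IsT' ψ := by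
  have : ψ = φ := funext h
  rw [this]
  exact hφ

lemma IsT'.mul {φ ψ : (ι → ℝ × ℝ) → ENNReal} (hφ : IsT' φ) (hψ : IsT' ψ) : IsT' fun p => φ p * ψ p := by
  obtain ⟨C, hC, φ₀, h1, h2⟩ := hφ
  obtain ⟨C', hC', ψ₀, h3, h4⟩ := hψ
  refine ⟨C * C', Nat.mul_pos hC hC', _, h1.mul h3, fun p => ?_⟩
  beta_reduce
  rw [h2, h4]
  push_cast
  ring

lemma IsT'.nat_mul {φ : (ι → ℝ × ℝ) → ENNReal} (hφ : IsT' φ) {n : ℕ} (hn : 0 < n) : IsT' fun p => n * φ p := by
  obtain ⟨C, hC, φ₀, h1, h2⟩ := hφ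
  refine ⟨n * C, Nat.mul_pos hn hC, _, h1, fun p => ?_⟩
  beta_reduce
  rw [h2]
  push_cast
  ring

lemma IsT'.pow {φ : (ι → ℝ × ℝ) → ENNReal} (hφ : IsT' φ) (n : ℕ) : IsT' fun p => φ p ^ n := by
  induction n with
  | zero => simpa using (IsT.one (ι := ι)).to'
  | succ n ih => simpa only [pow_succ] using ih.mul hφ

lemma IsT'.ind_mul {φ : (ι → ℝ × ℝ) → ENNReal} (hφ : IsT' φ) (S : List (Tri ι)) :
    IsT' fun p => chi (p ∈ reg S) * φ p := (IsT.ind S).to'.mul hφ

lemma IsT'.int1 {ψ : (ι ⊕ Unit → ℝ × ℝ) → ENNReal} (hψ : IsT' ψ) :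
    IsT' fun p => ∫⁻ z : ℝ × ℝ, ψ (Sum.elim p fun _ => z) := by
  obtain ⟨C, hC, φ₀, h1, h2⟩ := hψ
  refine ⟨C, hC, _, h1.int1, fun p => ?_⟩
  simp only [h2]
  have hm : Measurable fun z : ℝ × ℝ => φ₀ (Sum.elim p fun _ => z) :=
    h1.measurable.comp (measurable_elim' measurable_const (measurable_pi_iff.2 fun _ => measurable_id))
  rw [lintegral_const_mul _ hm]

lemma chi_mul_self {P : Prop} (a : ENNReal) : chi P * (chi P * a) = chi P * a := by
  by_cases h : P
  · simp [chi_pos h]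
  · simp [chi_neg h]

/-- The function and its reciprocal are multiples of volumes of fibres over the region. -/
def Good (S : List (Tri J)) (h : (J → ℝ × ℝ) → ℝ) : Prop := (∀ p ∈ reg S, 0 < h p) ∧
  IsT' (fun p => chi (p ∈ reg S) * ENNReal.ofReal (h p)) ∧ IsT' (fun p => chi (p ∈ reg S) * ENNReal.ofReal (h p)⁻¹)

variable {S : List (Tri J)}

lemma Good.one : Good S fun _ => 1 := by
  refine ⟨fun _ _ => one_pos, ?_, ?_⟩ <;>
  · simpa using (IsT.ind S).to'

lemma Good.mul {h k : (J → ℝ × ℝ) → ℝ} (hh : Good S h) (hk : Good S k) : Good S fun p => h p * k p := by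
  refine ⟨fun p hp => mul_pos (hh.1 p hp) (hk.1 p hp), (hh.2.1.mul hk.2.1).congr fun p => ?_,
    (hh.2.2.mul hk.2.2).congr fun p => ?_⟩
  · by_cases hp : p ∈ reg S
    · rw [ENNReal.ofReal_mul (hh.1 p hp).le]
      simp [chi_pos hp]
    · simp [chi_neg hp]
  · by_cases hp : p ∈ reg S
    · rw [mul_inv, ENNReal.ofReal_mul (inv_pos.2 (hh.1 p hp)).le]
      simp [chi_pos hp]
    · simp [chi_neg hp]

lemma Good.inv {h : (J → ℝ × ℝ) → ℝ} (hh : Good S h) : Good S fun p => (h p)⁻¹ := by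
  refine ⟨fun p hp => inv_pos.2 (hh.1 p hp), hh.2.2, ?_⟩
  simp only [inv_inv]
  exact hh.2.1

lemma Good.div {h k : (J → ℝ × ℝ) → ℝ} (hh : Good S h) (hk : Good S k) : Good S fun p => h p / k p := by
  simp only [div_eq_mul_inv]
  exact hh.mul hk.inv

lemma Good.congr {h k : (J → ℝ × ℝ) → ℝ} (hh : Good S h) (e : ∀ p, k p = h p) : Good S k := by
  have : k = h := funext e
  rw [this]
  exact hh

/-- the area of a triangle above the line -/
noncomputable def TA (p : J → ℝ × ℝ) (L : Ln J) : ENNReal :=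
  ∫⁻ z : ℝ × ℝ, chi (abv p L z) * (chi (0 < z.1) * chi (z.2 < 1))

/-- the area of a triangle below the line -/
noncomputable def TB (p : J → ℝ × ℝ) (L : Ln J) : ENNReal :=
  ∫⁻ z : ℝ × ℝ, chi (bel p L z) * (chi (z.1 < 1) * chi (0 < z.2))

lemma isT_TA (L : Ln J) : IsT fun p => TA p L := by
  have h1 := (IsT.ind [(mE (Sum.inl : J → J ⊕ Unit) (eA L), mE Sum.inl (eB L), Sum.inl (Sum.inr ())),
    (oo, Sum.inl (Sum.inr ()), e2), (uu, Sum.inl (Sum.inr ()), e1)]).int1
  refine h1.congr fun p => lintegral_congr fun z => ?_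
  rw [chi_cons, chi_cons, chi_cons, chi_nil, mul_one]
  simp only [Pos, D_e2, D_e1, D_dd, abv, cx, cy, cz, Sum.elim_inl, Sum.elim_inr]
  simp

lemma isT_TB (L : Ln J) : IsT fun p => TB p L := by
  have h1 := (IsT.ind [(mE (Sum.inl : J → J ⊕ Unit) (eB L), mE Sum.inl (eA L), Sum.inl (Sum.inr ())),
    (Sum.inl (Sum.inr ()), uu, e2), (Sum.inl (Sum.inr ()), oo, e1)]).int1
  refine h1.congr fun p => lintegral_congr fun z => ?_
  rw [chi_cons, chi_cons, chi_cons, chi_nil, mul_one]
  simp only [Pos, D_e2, D_e1, D_dd, bel, cx, cy, cz, Sum.elim_inl, Sum.elim_inr]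
  simp

lemma chi_eq_pw (t : ℝ) : chi (0 < t) = pw 0 1 (1 * t + 0) := by
  rw [one_mul, add_zero]
  by_cases h : 0 < t
  · rw [chi_pos h, pw_pos h]
    simp
  · rw [chi_neg h, pw_neg h]

lemma area_below {α : ℝ} (hα : 0 < α) :
    ∫⁻ z : ℝ × ℝ, chi (z.2 < α * z.1) * (chi (z.1 < 1) * chi (0 < z.2)) = ENNReal.ofReal (α / 2) := by
  have h1 := int_below hα one_pos one_pos 0 0 0 1
  rw [pw_pos (by positivity)] at h1
  rw [show α / 2 = (1 * α * 1 + (1 * 0 + 0)) ^ (0 + 2) / (((0 + 2).factorial : ℕ) * (1 * 1 * (1 * α))) by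
    norm_num
    field_simp, ← h1]
  refine lintegral_congr fun z => ?_
  rw [chi_eq_pw z.2, add_zero]
  ring

lemma area_above {α : ℝ} (hα : 0 < α) :
    ∫⁻ z : ℝ × ℝ, chi (α * z.1 < z.2) * (chi (0 < z.1) * chi (z.2 < 1)) = ENNReal.ofReal (α⁻¹ / 2) := by
  have h1 := int_above hα one_pos one_pos 0 0 0 1
  rw [pw_pos (by simp [hα])] at h1
  rw [show α⁻¹ / 2 = (1 / α * 1 + (0 - 1 * 0 / α)) ^ (0 + 2) / (((0 + 2).factorial : ℕ) * (1 * 1 * (1 / α))) by
    norm_num
    field_simp, ← h1]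
  refine lintegral_congr fun z => ?_
  rw [chi_eq_pw z.1, add_zero]
  ring

lemma lintegral_reflect (f : ℝ × ℝ → ENNReal) : ∫⁻ z : ℝ × ℝ, f (1 - z.1, 1 - z.2) = ∫⁻ z, f z :=
  lintegral_sub_left_eq_self f ((1, 1) : ℝ × ℝ)

/-- **The slopes of the lines** are multiples of areas. -/
lemma Good.al {L : Ln J} (h : ∀ p ∈ reg S, ok p L) : Good S fun p => al p L := by
  refine ⟨fun p hp => al_pos (h p hp), ?_⟩
  cases L with
  | diag => exact Good.one.2
  | sl j =>
    constructor
    · refine (((isT_TB (Ln.sl j)).to'.nat_mul two_pos).ind_mul S).congr fun p => ?_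
      by_cases hp : p ∈ reg S
      · have h1 := al_pos (h p hp)
        simp only [TB, bel_iff (h p hp), be, add_zero]
        rw [area_below h1, ← ENNReal.ofReal_natCast, ← ENNReal.ofReal_mul (by positivity)]
        congr 2
        push_cast
        ring
      · simp [chi_neg hp]
    · refine (((isT_TA (Ln.sl j)).to'.nat_mul two_pos).ind_mul S).congr fun p => ?_
      by_cases hp : p ∈ reg S
      · have h1 := al_pos (h p hp)
        simp only [TA, abv_iff (h p hp), be, add_zero]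
        rw [area_above h1, ← ENNReal.ofReal_natCast, ← ENNReal.ofReal_mul (by positivity)]
        congr 2
        push_cast
        ring
      · simp [chi_neg hp]
  | up j =>
    have hbe : ∀ p : J → ℝ × ℝ, be p (Ln.up j) = 1 - Pool.Agent.Helper8.OT.al p (Ln.up j) := fun p => rfl
    constructor
    · refine (((isT_TA (Ln.up j)).to'.nat_mul two_pos).ind_mul S).congr fun p => ?_
      by_cases hp : p ∈ reg S
      · have h1 := al_pos (h p hp)
        simp only [TA, abv_iff (h p hp), hbe]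
        rw [← lintegral_reflect]
        have h2 : ∀ z : ℝ × ℝ, chi (Pool.Agent.Helper8.OT.al p (Ln.up j) * (1 - z.1) + (1 - Pool.Agent.Helper8.OT.al p (Ln.up j)) < 1 - z.2) *
            (chi (0 < 1 - z.1) * chi (1 - z.2 < 1)) = chi (z.2 < Pool.Agent.Helper8.OT.al p (Ln.up j) * z.1) * (chi (z.1 < 1) * chi (0 < z.2)) := by
          intro z
          congr 2
          · exact propext ⟨fun h => by linarith, fun h => by linarith⟩
          · congr 1
            exact propext ⟨fun h => by linarith, fun h => by linarith⟩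
          · congr 1
            exact propext ⟨fun h => by linarith, fun h => by linarith⟩
        simp only [h2]
        rw [area_below h1, ← ENNReal.ofReal_natCast, ← ENNReal.ofReal_mul (by positivity)]
        congr 2
        push_cast
        ring
      · simp [chi_neg hp]
    · refine (((isT_TB (Ln.up j)).to'.nat_mul two_pos).ind_mul S).congr fun p => ?_
      by_cases hp : p ∈ reg S
      · have h1 := al_pos (h p hp)
        simp only [TB, bel_iff (h p hp), hbe]
        rw [← lintegral_reflect]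
        have h2 : ∀ z : ℝ × ℝ, chi (1 - z.2 < Pool.Agent.Helper8.OT.al p (Ln.up j) * (1 - z.1) + (1 - Pool.Agent.Helper8.OT.al p (Ln.up j))) *
            (chi (1 - z.1 < 1) * chi (0 < 1 - z.2)) = chi (Pool.Agent.Helper8.OT.al p (Ln.up j) * z.1 < z.2) * (chi (0 < z.1) * chi (z.2 < 1)) := by
          intro z
          congr 2
          · exact propext ⟨fun h => by linarith, fun h => by linarith⟩
          · congr 1
            exact propext ⟨fun h => by linarith, fun h => by linarith⟩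
          · congr 1
            exact propext ⟨fun h => by linarith, fun h => by linarith⟩
        simp only [h2]
        rw [area_above h1, ← ENNReal.ofReal_natCast, ← ENNReal.ofReal_mul (by positivity)]
        congr 2
        push_cast
        ring
      · simp [chi_neg hp]

/-- **The coefficients of words.** -/
lemma good_word {w : List (Ln J × Ln J)} (h : ∀ p ∈ reg S, okw p w) :
    Good S (fun p => cA p w) ∧ Good S fun p => cK p w := by
  induction w with
  | nil => exact ⟨Good.one, Good.one⟩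
  | cons l w ih =>
    obtain ⟨h1, h2⟩ := ih fun p hp l' hl' => h p hp l' (List.mem_cons_of_mem _ hl')
    have h3 : Good S fun p => al p l.1 := Good.al fun p hp => (h p hp l List.mem_cons_self).1
    have h4 : Good S fun p => al p l.2 := Good.al fun p hp => (h p hp l List.mem_cons_self).2
    have h5 := h1.div h4
    exact ⟨h5.mul h3, (((h2.mul h1).mul h5).mul h5).mul (h5.mul h3)⟩

/-- The forward step along a line. -/
def fwd (L : Ln J) : Ln J × Ln J := (L, Ln.diag)

/-- The backward step along a line. -/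
def bwd (L : Ln J) : Ln J × Ln J := (Ln.diag, L)

/-- The lines which are used: the lines of the points of the first kind through the origin, and the line of the last
point through `(1, 1)`. -/
def alw : Ln ((ι ⊕ Unit) ⊕ Unit) → Prop
  | Ln.diag => True
  | Ln.sl (Sum.inl _) => True
  | Ln.sl (Sum.inr _) => False
  | Ln.up (Sum.inl _) => False
  | Ln.up (Sum.inr _) => True

/-- the words for the elementary translations -/
def plus : List (Ln ((ι ⊕ Unit) ⊕ Unit) × Ln ((ι ⊕ Unit) ⊕ Unit)) :=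
  [bwd (Ln.sl (Sum.inl (Sum.inr ()))), bwd (Ln.up (Sum.inr ())), fwd (Ln.sl (Sum.inl (Sum.inr ()))), fwd (Ln.up (Sum.inr ()))]

/-- the words for the elementary translations -/
def minus : List (Ln ((ι ⊕ Unit) ⊕ Unit) × Ln ((ι ⊕ Unit) ⊕ Unit)) :=
  [bwd (Ln.up (Sum.inr ())), bwd (Ln.sl (Sum.inl (Sum.inr ()))), fwd (Ln.up (Sum.inr ())), fwd (Ln.sl (Sum.inl (Sum.inr ())))]

/-- the slopes -/
noncomputable def xs (p : ι → ℝ × ℝ) (i : ι) : ℝ := (p i).2 / (p i).1

/-- the unit of the translations -/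
noncomputable def WW (p : (ι ⊕ Unit) ⊕ Unit → ℝ × ℝ) : ℝ :=
  (1 - al p (Ln.sl (Sum.inl (Sum.inr ())))) * (1 - al p (Ln.up (Sum.inr ())))

/-- **A word for a polynomial.** -/
theorem exists_word (F : MvPolynomial ι ℤ) : ∃ w : List (Ln ((ι ⊕ Unit) ⊕ Unit) × Ln ((ι ⊕ Unit) ⊕ Unit)),
    (∀ l ∈ w, alw l.1 ∧ alw l.2) ∧ ∀ p, (∀ L, alw L → 0 < al p L) →
      cA p w = 1 ∧ cB p w = MvPolynomial.aeval (xs fun i => p (Sum.inl (Sum.inl i))) F * WW p := by
  have hplus : ∀ l ∈ (plus : List (Ln ((ι ⊕ Unit) ⊕ Unit) × Ln ((ι ⊕ Unit) ⊕ Unit))), alw l.1 ∧ alw l.2 := by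
    simp [plus, fwd, bwd, alw]
  have hminus : ∀ l ∈ (minus : List (Ln ((ι ⊕ Unit) ⊕ Unit) × Ln ((ι ⊕ Unit) ⊕ Unit))), alw l.1 ∧ alw l.2 := by
    simp [minus, fwd, bwd, alw]
  have hp1 : ∀ p : (ι ⊕ Unit) ⊕ Unit → ℝ × ℝ, (∀ L, alw L → 0 < al p L) → cA p plus = 1 ∧ cB p plus = WW p := by
    intro p hp
    have h1 := (hp (Ln.sl (Sum.inl (Sum.inr ()))) trivial).ne'
    have h2 := (hp (Ln.up (Sum.inr ())) trivial).ne'
    have h3 : be p (Ln.up (Sum.inr ())) = 1 - al p (Ln.up (Sum.inr ())) := rfl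
    have h4 : be p (Ln.sl (Sum.inl (Sum.inr ()))) = 0 := rfl
    have h5 : al p Ln.diag = 1 := rfl
    have h6 : be p Ln.diag = 0 := rfl
    constructor
    · simp only [plus, cA, fwd, bwd, h5]
      field_simp
    · simp only [plus, cA, cB, fwd, bwd, h3, h4, h5, h6, WW]
      field_simp
      ring
  have hm1 : ∀ p : (ι ⊕ Unit) ⊕ Unit → ℝ × ℝ, (∀ L, alw L → 0 < al p L) → cA p minus = 1 ∧ cB p minus = -WW p := by
    intro p hp
    have h1 := (hp (Ln.sl (Sum.inl (Sum.inr ()))) trivial).ne'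
    have h2 := (hp (Ln.up (Sum.inr ())) trivial).ne'
    have h3 : be p (Ln.up (Sum.inr ())) = 1 - al p (Ln.up (Sum.inr ())) := rfl
    have h4 : be p (Ln.sl (Sum.inl (Sum.inr ()))) = 0 := rfl
    have h5 : al p Ln.diag = 1 := rfl
    have h6 : be p Ln.diag = 0 := rfl
    constructor
    · simp only [minus, cA, fwd, bwd, h5]
      field_simp
    · simp only [minus, cA, cB, fwd, bwd, h3, h4, h5, h6, WW]
      field_simp
      ring
  induction F using MvPolynomial.induction_on with
  | C a =>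
    induction a using Int.induction_on with
    | zero => exact ⟨[], by simp, fun p _ => by simp [cA, cB]⟩
    | succ n ih =>
      obtain ⟨w, h1, h2⟩ := ih
      refine ⟨w ++ plus, fun l hl => ?_, fun p hp => ?_⟩
      · rcases List.mem_append.1 hl with h | h
        · exact h1 l h
        · exact hplus l h
      · obtain ⟨h3, h4⟩ := h2 p hp
        obtain ⟨h5, h6⟩ := hp1 p hp
        rw [cA_append, cB_append, h3, h4, h5, h6]
        refine ⟨by ring, ?_⟩
        rw [map_add, map_add]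
        simp only [map_one]
        ring
    | pred n ih =>
      obtain ⟨w, h1, h2⟩ := ih
      refine ⟨w ++ minus, fun l hl => ?_, fun p hp => ?_⟩
      · rcases List.mem_append.1 hl with h | h
        · exact h1 l h
        · exact hminus l h
      · obtain ⟨h3, h4⟩ := h2 p hp
        obtain ⟨h5, h6⟩ := hm1 p hp
        rw [cA_append, cB_append, h3, h4, h5, h6]
        refine ⟨by ring, ?_⟩
        rw [map_sub, map_sub]
        simp only [map_one]
        ring
  | add f g hf hg =>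
    obtain ⟨w, h1, h2⟩ := hf
    obtain ⟨w', h1', h2'⟩ := hg
    refine ⟨w ++ w', fun l hl => ?_, fun p hp => ?_⟩
    · rcases List.mem_append.1 hl with h | h
      · exact h1 l h
      · exact h1' l h
    · obtain ⟨h3, h4⟩ := h2 p hp
      obtain ⟨h5, h6⟩ := h2' p hp
      rw [cA_append, cB_append, h3, h4, h5, h6, map_add]
      exact ⟨by ring, by ring⟩
  | mul_X f i hf =>
    obtain ⟨w, h1, h2⟩ := hf
    refine ⟨[bwd (Ln.sl (Sum.inl (Sum.inl i)))] ++ w ++ [fwd (Ln.sl (Sum.inl (Sum.inl i)))], fun l hl => ?_, fun p hp => ?_⟩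
    · simp only [List.append_assoc, List.mem_append, List.mem_singleton] at hl
      rcases hl with rfl | h | rfl
      · exact ⟨trivial, trivial⟩
      · exact h1 l h
      · exact ⟨trivial, trivial⟩
    · obtain ⟨h3, h4⟩ := h2 p hp
      have h5 := (hp (Ln.sl (Sum.inl (Sum.inl i))) trivial).ne'
      have h6 : al p (Ln.sl (Sum.inl (Sum.inl i))) = xs (fun i => p (Sum.inl (Sum.inl i))) i := rfl
      have h7 : be p (Ln.sl (Sum.inl (Sum.inl i))) = 0 := rfl
      have h8 : al p Ln.diag = 1 := rfl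
      have h9 : be p Ln.diag = 0 := rfl
      rw [cA_append, cA_append, cB_append, cB_append, h3, h4, map_mul, MvPolynomial.aeval_X]
      simp only [cA, cB, fwd, bwd, h7, h8, h9]
      rw [h6] at h5 ⊢
      constructor
      · field_simp
      · field_simp
        ring

end Pool.Agent.Helper8.OT
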